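import Pool.Agent.J5.H37.UJ.Knots

/-!
# The short words
-/

set_option autoImplicit false

namespace Pool.Agent.J5.H37.UJ

open Finset LaurentPolynomial Pool.Agent.H891R2.Jones Pool.Agent.W639.RB Pool.Agent.Y463.SK

theorem tr5 {K : Type*} [Field K] {a d : K} (ha : a ≠ 0) (hd : d = -a ^ 2 - a⁻¹ ^ 2) : 
    ∑ k, co a a⁻¹ d w5 k * d ^ CL k = - d * a ^ 9 := by
  simp only [w5, co, List.foldr_cons, List.foldr_nil, one14_eq, La, if_true, E, Matrix.smul_cons, 
      Matrix.cons_add_cons, Matrix.cons_val, Matrix.smul_empty, Matrix.empty_add_empty, 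
      Bool.false_eq_true, if_false, smul_eq_mul, mul_zero, mul_one, add_zero, zero_add, CL,
      Fin.sum_univ_succ, Fin.sum_univ_zero, Matrix.cons_val_zero, Matrix.cons_val_succ, 
      zero_mul]
  rw [hd]
  field_simp
  ring

/-- the short words -/
def IsShort (w : List (Bool × ℕ)) : Prop := 
  w = w5 ∨ ∃ o ∈ ords, ∃ s1 s2 s3 : Bool, w = [(s1, o.1), (s2, o.2.1), (s3, o.2.2)]

theorem IsShort.lt {w : List (Bool × ℕ)} (h : IsShort w) : ∀ x ∈ w, x.2 + 1 < 4 := by
  rcases h with rfl | ⟨o, ho, s1, s2, s3, rfl⟩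
  · exact w5_lt
  · simp only [ords, List.mem_cons, List.not_mem_nil, or_false] at ho
    rcases ho with rfl | rfl | rfl | rfl <;> simp

/-- the closures of the short words have trivial polynomial -/
theorem IsShort.ff_eq {w : List (Bool × ℕ)} (h : IsShort w) : ff (braidClosure 4) w = 1 := by
  apply eq_one_of_ev
  intro N hN
  have hNC : (N : ℂ) ≠ 0 := by
    rw [Nat.cast_ne_zero]; omega
  have h1 := ff_word w h.lt ⟨N, hN⟩
  have hA := Ar_ne N hN
  have h2 : ev N hN (sgn (expo w) * T (-3 * expo w)) * trN ⟨N, hN⟩ (bb 4 w) = (N : ℂ) := by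
    rw [tr_word _ w h.lt, map_mul, ev_T, ev_sgn ⟨N, hN⟩]
    rcases h with rfl | ⟨o, ho, s1, s2, s3, rfl⟩
    · rw [tr5 hA (Ar_d N hN)]
      have e1 : expo w5 = 3 := by decide
      rw [e1, if_neg (by decide)]
      have : Ar N ^ (-3 * (3 : ℤ)) = (Ar N ^ 9)⁻¹ := by
        rw [show (-3 * (3 : ℤ)) = -((9 : ℕ) : ℤ) by norm_num, zpow_neg, zpow_natCast]
      rw [this]
      field_simp
    · rw [tr3 hA (Ar_d N hN) o ho]
      have e1 : expo [(s1, o.1), (s2, o.2.1), (s3, o.2.2)] = 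
        (if s1 then 1 else -1) + ((if s2 then 1 else -1) + (if s3 then 1 else -1)) := by
        simp [expo]
      rw [e1]
      have hz : ∀ k : ℕ, Ar N ^ (-(k : ℤ)) = (Ar N ^ k)⁻¹ := fun k => by rw [zpow_neg, zpow_natCast]
      cases s1 <;> cases s2 <;> cases s3 <;> 
        simp only [al, if_true, Bool.false_eq_true, if_false]
      · rw [if_neg (by decide), show (-3 * (-1 + (-1 + -1)) : ℤ) = ((9 : ℕ) : ℤ) by norm_num, 
          zpow_natCast]
        field_simp
      · rw [if_neg (by decide), show (-3 * (-1 + (-1 + 1)) : ℤ) = ((3 : ℕ) : ℤ) by norm_num, 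
          zpow_natCast]
        field_simp
      · rw [if_neg (by decide), show (-3 * (-1 + (1 + -1)) : ℤ) = ((3 : ℕ) : ℤ) by norm_num, 
          zpow_natCast]
        field_simp
      · rw [if_neg (by decide), show (-3 * (-1 + (1 + 1)) : ℤ) = -((3 : ℕ) : ℤ) by norm_num, hz]
        field_simp
      · rw [if_neg (by decide), show (-3 * (1 + (-1 + -1)) : ℤ) = ((3 : ℕ) : ℤ) by norm_num, 
          zpow_natCast]
        field_simp
      · rw [if_neg (by decide), show (-3 * (1 + (-1 + 1)) : ℤ) = -((3 : ℕ) : ℤ) by norm_num, hz]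
        field_simp
      · rw [if_neg (by decide), show (-3 * (1 + (1 + -1)) : ℤ) = -((3 : ℕ) : ℤ) by norm_num, hz]
        field_simp
      · rw [if_neg (by decide), show (-3 * (1 + (1 + 1)) : ℤ) = -((9 : ℕ) : ℤ) by norm_num, hz]
        field_simp
  simp only at h1
  rw [h2] at h1
  exact mul_left_cancel₀ hNC (by rw [h1, mul_one])

/-- the short words detect nontrivial elements -/
theorem exists_short {x : List (Bool × ℕ)} (hx : ∀ z ∈ x, z.2 + 1 < 4) (hp : permL x = 1) 
    (hc : ∀ U : ℕ → ℤ, costS x U = 0) (hne : MB x ≠ 1) : 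
    ∃ w, IsShort w ∧ ff (braidClosure 4) (x ++ w) ≠ 1 := by
  by_contra hcon
  push Not at hcon
  apply hne
  have hU : pat (braidClosure 4).up ∘ ⇑(1 : Equiv.Perm ℕ) = pat (braidClosure 4).up := rfl
  have h1 : ∀ (N : {N : ℕ // 3 ≤ N}) (w : List (Bool × ℕ)), IsShort w → 
      trN N ((bb 4 x - 1) * bb 4 w) = 0 := by
    intro N w hw
    have e1 := ff_value (by norm_num) (braidClosure 4) w x hw.lt hx N
    have e2 := ff_value (by norm_num) (braidClosure 4) w [] hw.lt (by simp) N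
    rw [hcon w hw, costS_append, hc, zero_add, hp, hU, Fn_tr] at e1
    rw [List.nil_append, hw.ff_eq, Fn_tr] at e2
    have h3 : bb 4 [] = 1 := rfl
    rw [h3] at e2
    rw [e1] at e2
    set κ := ev N.1 N.2 (sgn (owr (braidClosure 4) + costS w (pat (braidClosure 4).up)) * 
        T (-3 * (owr (braidClosure 4) + costS w (pat (braidClosure 4).up)))) with hκ
    have hκ0 : κ ≠ 0 := by
      intro h0
      rw [h0, zero_mul, map_one, mul_one] at e1
      exact absurd e1 (by rw [Nat.cast_eq_zero]; have := N.2; omega)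
    have e3 := mul_left_cancel₀ hκ0 e2
    have e4 : (bb 4 x - 1) * bb 4 w = bb 4 x * bb 4 w + (-1 : ℤ[T;T⁻¹]) • (1 * bb 4 w) := by
      rw [neg_smul, one_smul]
      noncomm_ring
    rw [e4, trN_add, trN_smul, e3, map_neg, map_one]
    ring
  have h2 : ∀ (k : Fin 14) (N : {N : ℕ // 3 ≤ N}), 
      trN N (lc (EB 4) (co (T 1 : ℤ[T;T⁻¹]) (T (-1)) dd x + (-1 : ℤ[T;T⁻¹]) • one14) * bs (EB 4) k) = 0 := by
    intro k N
    have e0 : lc (EB 4) (co (T 1 : ℤ[T;T⁻¹]) (T (-1)) dd x + (-1 : ℤ[T;T⁻¹]) • one14) = bb 4 x - 1 := by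
      rw [lc_add, lc_smul, lc_one, ← bb_lc x hx, neg_smul, one_smul]
      abel
    rw [e0]
    exact all_bs (N := N) (fun b => trN N ((bb 4 x - 1) * b)) 
      (by intro b b'; simp only [mul_add, trN_add]) 
      (by intro r b; simp only [mul_smul_comm, trN_smul])
      (by intro o ho s1 s2 s3; exact h1 N _ (Or.inr ⟨o, ho, s1, s2, s3, rfl⟩)) 
      (h1 N _ (Or.inl rfl)) k
  have h3 := nondeg _ h2
  have h4 : co (T 1 : ℤ[T;T⁻¹]) (T (-1)) dd x = one14 := by
    have : co (T 1 : ℤ[T;T⁻¹]) (T (-1)) dd x = 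
      (co (T 1 : ℤ[T;T⁻¹]) (T (-1)) dd x + (-1 : ℤ[T;T⁻¹]) • one14) + one14 := by
      rw [neg_smul, one_smul]; abel
    rw [this, h3, zero_add]
  have h5 : MB x = lc (E3 dd) (co (T 1 : ℤ[T;T⁻¹]) (T (-1)) dd x) := wd_eq (isTLr_E3 dd) x hx
  rw [h5, h4, lc_one]

/-- the closure of the braid is a knot -/
def IsKnotW {m : ℕ} (w : List (Letter m)) : Prop := ∀ i j : Fin m, (permW w).SameCycle i j

/-- the short words with letters -/
theorem IsShort.letters {w : List (Bool × ℕ)} (h : IsShort w) : 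
    ∃ w' : List (Letter 4), toN w' = w ∧ IsKnotW w' := by
  rcases h with rfl | ⟨o, ho, s1, s2, s3, rfl⟩
  · refine ⟨[(false, 1), (true, 2), (true, 0), (true, 1), (true, 1)], rfl, ?_⟩
    unfold IsKnotW
    decide
  · simp only [ords, List.mem_cons, List.not_mem_nil, or_false] at ho
    rcases ho with rfl | rfl | rfl | rfl
    · refine ⟨[(s1, 0), (s2, 1), (s3, 2)], rfl, ?_⟩
      have : permW [(s1, 0), (s2, 1), (s3, 2)] = permW ([(true, 0), (true, 1), (true, 2)] : List (Letter 4)) := rfl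
      unfold IsKnotW
      rw [this]
      decide
    · refine ⟨[(s1, 2), (s2, 1), (s3, 0)], rfl, ?_⟩
      have : permW [(s1, 2), (s2, 1), (s3, 0)] = permW ([(true, 2), (true, 1), (true, 0)] : List (Letter 4)) := rfl
      unfold IsKnotW
      rw [this]
      decide
    · refine ⟨[(s1, 1), (s2, 2), (s3, 0)], rfl, ?_⟩
      have : permW [(s1, 1), (s2, 2), (s3, 0)] = permW ([(true, 1), (true, 2), (true, 0)] : List (Letter 4)) := rfl
      unfold IsKnotW
      rw [this]
      decide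
    · refine ⟨[(s1, 2), (s2, 0), (s3, 1)], rfl, ?_⟩
      have : permW [(s1, 2), (s2, 0), (s3, 1)] = permW ([(true, 2), (true, 0), (true, 1)] : List (Letter 4)) := rfl
      unfold IsKnotW
      rw [this]
      decide

end Pool.Agent.J5.H37.UJ
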