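import Pool.Agent.J5.H37.UJ.Chain2
import Pool.Agent.J5.H37.UJ.Short

/-!
# Assembly
-/

set_option autoImplicit false

namespace Pool.Agent.J5.H37.UJ

open Finset LaurentPolynomial Pool.Agent.H891R2.Jones Pool.Agent.W639.RB Pool.Agent.Y463.SK

theorem C1.pow {R B : Type*} [CommRing R] [Ring B] [Algebra R B] {α : R} {x : B} (h : C1 α x) (k : ℕ) : 
    C1 α (x ^ k) := by
  obtain ⟨z, rfl⟩ := h
  induction k with
  | zero => exact ⟨0, by simp⟩
  | succ k ih =>
    obtain ⟨z', hz'⟩ := ih
    refine ⟨z + z' + α • (z' * z), ?_⟩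
    rw [pow_succ, hz']
    simp only [add_mul, mul_add, smul_mul_assoc, mul_smul_comm, one_mul, mul_one, smul_add]
    abel

theorem C1.inv {R B : Type*} [CommRing R] [Ring B] [Algebra R B] {α : R} {x y : B} (h : C1 α x) 
    (hxy : x * y = 1) : C1 α y := by
  obtain ⟨z, rfl⟩ := h
  refine ⟨-(z * y), ?_⟩
  rw [add_mul, one_mul, smul_mul_assoc] at hxy
  rw [smul_neg, ← hxy]
  abel

theorem C1.mono {R B : Type*} [CommRing R] [Ring B] [Algebra R B] {α β : R} {x : B} (h : C1 β x) 
    (hαβ : α ∣ β) : C1 α x := by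
  obtain ⟨z, rfl⟩ := h
  obtain ⟨γ, rfl⟩ := hαβ
  exact ⟨γ • z, by rw [smul_smul]⟩

/-- integer powers -/
theorem powL_C1 {h : ℤ[T;T⁻¹]} {x : List (Bool × ℕ)} (hx : ∀ z ∈ x, z.2 + 1 < 4) (h1 : C1 h (sw x)) 
    (k : ℤ) : C1 h (sw (powL x k)) := by
  rcases k with k | k
  · show C1 h (sw (List.replicate k x).flatten)
    unfold sw at *
    rw [wd_replicate]
    exact h1.pow k
  · show C1 h (sw (List.replicate (k+1) (invL x)).flatten)
    unfold sw at *
    rw [wd_replicate]
    exact (h1.inv (wd_inv isTLr_es T_mul_inv rfl x hx)).pow (k+1)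

/-- letters for a word -/
theorem exists_toN : ∀ (x : List (Bool × ℕ)), (∀ z ∈ x, z.2 + 1 < 4) → 
    ∃ x' : List (Letter 4), toN x' = x
  | [], _ => ⟨[], rfl⟩
  | z :: x, h => by
    obtain ⟨x', hx'⟩ := exists_toN x (fun y hy => h y (List.mem_cons_of_mem _ hy))
    have hz := h z List.mem_cons_self
    refine ⟨(z.1, (⟨z.2, by omega⟩ : Fin (4 - 1))) :: x', ?_⟩
    have : toN ((z.1, (⟨z.2, by omega⟩ : Fin (4 - 1))) :: x') = (z.1, z.2) :: toN x' := rfl
    rw [this, hx']

theorem pure_of_permL {x : List (Letter 4)} (h : permL (toN x) = 1) : IsPure x := by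
  unfold IsPure
  ext i
  have := (permL_toN x).1 i
  rw [h] at this
  exact this.symm

theorem permW_append {m : ℕ} (x y : List (Letter m)) : permW (x ++ y) = permW x * permW y := by
  simp [permW]

theorem permW_inv {m : ℕ} (x : List (Letter m)) : permW x * permW (invW x) = 1 := by
  induction x with
  | nil => rfl
  | cons z x ih =>
    have h1 : invW (z :: x) = invW x ++ [(!z.1, z.2)] := by simp [invW]
    have h2 : permW (z :: x) = permW [z] * permW x := permW_append [z] x
    have h3 : permW [(!z.1, z.2)] = permW [z] := rfl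
    have h4 : permW [z] * permW [z] = 1 := by
      simp [permW, Equiv.swap_mul_self]
    rw [h1, permW_append, h2, h3]
    calc permW [z] * permW x * (permW (invW x) * permW [z]) = 
          permW [z] * (permW x * permW (invW x)) * permW [z] := by group
      _ = 1 := by rw [ih, mul_one, h4]

theorem permW_powW {m : ℕ} {x : List (Letter m)} (h : IsPure x) (k : ℤ) : permW (powW x k) = 1 := by
  have h1 : permW (invW x) = 1 := by
    have := permW_inv x
    rw [show permW x = 1 from h, one_mul] at this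
    exact this
  have h2 : ∀ (y : List (Letter m)), permW y = 1 → ∀ n : ℕ, permW (List.replicate n y).flatten = 1 := by
    intro y hy n
    induction n with
    | zero => rfl
    | succ n ih => rw [List.replicate_succ, List.flatten_cons, permW_append, hy, ih, one_mul]
  rcases k with k | k
  · exact h2 x h k
  · exact h2 _ h1 (k+1)

theorem dia_closed' {m : ℕ} (O : Outer m) (hO : O.close.IsClosed) (w : List (Letter m)) 
    (h : ∀ j, O.up (permW w j) = O.up j) : (dia O w).IsClosed := by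
  show (draw O (toN w)).close.IsClosed
  rw [closed_iff] at hO ⊢
  have h2 := (draw_writhe (toN w) O (toN_lt _)).2
  have h3 : (draw O (toN w)).up = O.up := by
    apply pat_inj
    rw [h2]
    funext i
    rw [Function.comp_apply]
    rcases Nat.lt_or_ge i m with hi | hi
    · have h4 := (permL_toN w).1 ⟨i, hi⟩
      simp only at h4
      rw [h4]
      unfold pat
      rw [dif_pos (Fin.is_lt _), dif_pos hi, Fin.eta, h]
    · rw [(permL_toN w).2 i hi]
  rw [h3]
  exact good_draw _ _ O hO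

theorem closure_closed : (braidClosure 4).close.IsClosed := by
  intro p
  revert p
  show ∀ p : Fin 4, (braidClosure 4).close.starts.count p = 1 ∧ (braidClosure 4).close.ends.count p = 1
  decide

/-- `N` divides a power of `30` -/
theorem dvd_pow30 {N : ℕ} (hN : N ≠ 0) (hp : ∀ p, p.Prime → p ∣ N → p = 2 ∨ p = 3 ∨ p = 5) : 
    N ∣ 30 ^ N := by
  rw [Nat.dvd_iff_prime_pow_dvd_dvd]
  intro p k hpp hk
  rcases Nat.eq_zero_or_pos k with rfl | hk0
  · simp
  have h1 : p ∣ N := (dvd_pow_self p (by omega)).trans hk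
  have h2 : p ∣ 30 := by
    rcases hp p hpp h1 with rfl | rfl | rfl <;> norm_num
  have h3 : k ≤ N := by
    have h4 : p ^ k ≤ N := Nat.le_of_dvd (by omega) hk
    have h5 : k < p ^ k := Nat.lt_pow_self hpp.one_lt
    omega
  exact (pow_dvd_pow_of_dvd h2 k).trans (pow_dvd_pow 30 h3)

/-- a word with all properties -/
theorem exists_good {N : ℕ} (hN : N ≠ 0) (hp : ∀ p, p.Prime → p ∣ N → p = 2 ∨ p = 3 ∨ p = 5) {n : ℕ} 
    (hn : n ≠ 0) (r : ℕ) : ∃ x : List (Bool × ℕ), (∀ z ∈ x, z.2 + 1 < 4) ∧ permL x = 1 ∧ 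
      (∀ U : ℕ → ℤ, costS x U = 0) ∧ C1 ((N : ℤ[T;T⁻¹]) * (1 - T (-4) ^ n) ^ r) (sw x) ∧ 
      ∃ w, IsShort w ∧ ff (braidClosure 4) (x ++ w) ≠ 1 := by
  obtain ⟨y, hy⟩ := good_both good_x30 (n := n) (by omega) r
  obtain ⟨w, hw, hne⟩ := exists_short hy.lt hy.perm hy.cost hy.ne
  have hlt' := powL_lt hy.lt
  -- some power `30^s`, `s ≥ N`, still gives a nontrivial polynomial
  have hs : ∃ s : ℕ, N ≤ s ∧ ff (braidClosure 4) (powL y ((30 ^ s : ℕ) : ℤ) ++ w) ≠ 1 := by
    by_contra hcon
    push Not at hcon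
    rcases single (by norm_num) (braidClosure 4) y hy.lt hy.perm w hw.lt 1 with h1 | h1
    · apply hne
      have h2 := h1 1
      have h3 : powL y 1 = y := by
        show (List.replicate 1 y).flatten = y
        simp
      rwa [h3] at h2
    · have h2 := h1 ((Finset.range 25).image (fun j : ℕ => ((30 ^ (N + j) : ℕ) : ℤ))) (by
        intro z hz
        obtain ⟨j, _, rfl⟩ := Finset.mem_image.1 hz
        exact hcon (N + j) (by omega))
      rw [Finset.card_image_of_injective _ (by
        intro a b hab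
        have h30 : ((30 ^ (N + a) : ℕ) : ℤ) = ((30 ^ (N + b) : ℕ) : ℤ) := hab
        have h3 : (30 : ℕ) ^ (N + a) = 30 ^ (N + b) := Nat.cast_injective h30
        have := Nat.pow_right_injective (by norm_num : 2 ≤ 30) h3
        omega), Finset.card_range] at h2
      have : Nat.factorial 4 = 24 := rfl
      omega
  obtain ⟨s, hsN, hsne⟩ := hs
  refine ⟨powL y ((30 ^ s : ℕ) : ℤ), hlt' _, permL_powL hy.perm _, ?_, ?_, w, hw, hsne⟩
  · intro U
    rw [costS_powL hy.perm, hy.cost, mul_zero]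
  · have h1 := pow30s (x := sw y) (α := 30 * (gg n * hh n) ^ r) (Dvd.intro _ rfl) hy.c1 s
    have h2 : sw (powL y ((30 ^ s : ℕ) : ℤ)) = sw y ^ (30 ^ s) := wd_replicate y (30 ^ s)
    rw [h2]
    apply h1.mono
    have h3 : (N : ℤ[T;T⁻¹]) ∣ 30 ^ s * 30 := by
      have h4 : N ∣ 30 ^ s * 30 := (dvd_pow30 hN hp).trans ((pow_dvd_pow 30 hsN).trans (Dvd.intro _ rfl))
      have h5 := Nat.cast_dvd_cast (α := ℤ[T;T⁻¹]) h4
      push_cast at h5
      exact h5
    have h4 : (1 - T (-4) ^ n : ℤ[T;T⁻¹]) ∣ gg n * hh n := by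
      refine Dvd.dvd.trans ?_ (dvd_both n)
      refine ⟨1 + T (-4) ^ n, ?_⟩
      have : (T (-(8 * n)) : ℤ[T;T⁻¹]) = T (-4) ^ n * T (-4) ^ n := by
        rw [T_pow, ← T_add]
        congr 1
        ring
      rw [this]
      ring
    have h5 := mul_dvd_mul h3 (pow_dvd_pow_of_dvd h4 r)
    rw [mul_assoc] at h5
    exact h5

end Pool.Agent.J5.H37.UJ
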