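import Pool.Agent.J5.H37.UJ.Chk
import Pool.Agent.Y463.SK.Main

/-!
# Words which are congruent to one in the Temperley–Lieb algebra
-/

set_option autoImplicit false

namespace Pool.Agent.J5.H37.UJ

open Pool.Agent.Y463.SK

/-- the positive word -/
def pos (w : List ℕ) : List (Bool × ℕ) := w.map (fun i => (true, i))

/-- the commutator -/
def comW (x y : List (Bool × ℕ)) : List (Bool × ℕ) := x ++ (y ++ (invL x ++ invL y))

theorem invL_invL (w : List (Bool × ℕ)) : invL (invL w) = w := by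
  unfold invL
  rw [List.map_reverse, List.reverse_reverse, List.map_map]
  have : ((fun x : Bool × ℕ => (!x.1, x.2)) ∘ fun x : Bool × ℕ => (!x.1, x.2)) = id := by
    funext x; simp
  rw [this, List.map_id]

theorem invL_lt {w : List (Bool × ℕ)} {m : ℕ} (hw : ∀ x ∈ w, x.2 + 1 < m) : 
    ∀ x ∈ invL w, x.2 + 1 < m := by
  intro x hx
  unfold invL at hx
  rw [List.mem_reverse, List.mem_map] at hx
  obtain ⟨y, hy, rfl⟩ := hx
  exact hw y hy

theorem comW_lt {x y : List (Bool × ℕ)} {m : ℕ} (hx : ∀ z ∈ x, z.2 + 1 < m) 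
    (hy : ∀ z ∈ y, z.2 + 1 < m) : ∀ z ∈ comW x y, z.2 + 1 < m := by
  intro z hz
  simp only [comW, List.mem_append] at hz
  rcases hz with h | h | h | h
  · exact hx z h
  · exact hy z h
  · exact invL_lt hx z h
  · exact invL_lt hy z h

section alg

variable {R B : Type*} [CommRing R] [Ring B] [Algebra R B] {A A' d : R} {e : ℕ → B}

theorem ltr_pos (hA : A * A' = 1) (i : ℕ) : 
    ltr A A' e (true, i) = A • ((1 : B) + (A' * A') • e i) := by
  unfold ltr
  rw [if_pos rfl, smul_add, smul_smul]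
  congr 2
  linear_combination (-A') * hA

theorem wd_pos (h : IsTLr 4 d e) (hA : A * A' = 1) (hd : d = -A ^ 2 - A' ^ 2) (w : List ℕ) 
    (hw : ∀ i ∈ w, i < 3) : 
    wd A A' e (pos w) = 
      A ^ w.length • lc e (sc (A' * A') (runR ((A' * A') * (A' * A')) w)) := by
  have hv : (A' * A') * d = -(1 + (A' * A') * (A' * A')) := by
    rw [hd]
    linear_combination (-(A * A') - 1) * hA
  induction w with
  | nil => 
    have h1 : sc (A' * A') (runR ((A' * A') * (A' * A')) []) = (one14 : Fin 14 → R) := by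
      funext j
      fin_cases j <;> simp [sc, runR, one14]
    rw [h1, lc_one]
    simp [pos, wd]
  | cons i w ih =>
    have h1 : wd A A' e (pos (i :: w)) = ltr A A' e (true, i) * wd A A' e (pos w) := by 
      simp [wd, pos]
    have hi := hw i List.mem_cons_self
    rw [h1, ih (fun j hj => hw j (List.mem_cons_of_mem _ hj)), ltr_pos hA, mul_smul_comm, 
      smul_mul_assoc, add_mul, one_mul, smul_mul_assoc, e_lc h i hi, ← lc_smul, ← lc_add, 
      sc_stp hv i hi, smul_smul, List.length_cons, pow_succ]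
    rfl

/-- two positive words of the same length which agree modulo `p` -/
theorem pos_congr (h : IsTLr 4 d e) (hA : A * A' = 1) (hd : d = -A ^ 2 - A' ^ 2) {p : ℕ} 
    (hp : 1 ≤ p) {w w' : List ℕ} (hw : ∀ i ∈ w, i < 3) (hw' : ∀ i ∈ w', i < 3) 
    (hl : w.length = w'.length) (hs : samep (runL p w) (runL p w') = true) :
    ∃ z : B, wd A A' e (pos w) = wd A A' e (pos w') + (p : R) • z := by
  choose f hf using fun j => dvd_of_samep hp hs (A' * A') j
  refine ⟨A ^ w.length • lc e f, ?_⟩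
  rw [wd_pos h hA hd w hw, wd_pos h hA hd w' hw', ← hl, smul_comm (p : R), ← smul_add]
  congr 1
  rw [← lc_smul (p : R), ← lc_add]
  congr 1
  funext j
  rw [Pi.add_apply, Pi.smul_apply, smul_eq_mul, ← hf j]
  ring

theorem ltr_inv (h : IsTLr 4 d e) (hA : A * A' = 1) (hd : d = -A ^ 2 - A' ^ 2) (b : Bool) (i : ℕ) 
    (hi : i + 1 < 4) : ltr A A' e (b, i) * ltr A A' e (!b, i) = 1 := by
  have hs := h.sq i hi
  have key : ∀ a a' : R, a * a' = 1 → d = -a ^ 2 - a' ^ 2 → 
      (a • (1 : B) + a' • e i) * (a' • (1 : B) + a • e i) = 1 := by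
    intro a a' ha hda
    simp only [add_mul, mul_add, smul_mul_assoc, mul_smul_comm, one_mul, mul_one, hs, smul_smul, 
      smul_add]
    have h1 : (a * (a' * d)) • e i = -((a' * a') • e i + (a * a) • e i) := by
      rw [← add_smul, ← neg_smul]
      congr 1
      rw [hda]
      linear_combination (-(a ^ 2) - a' ^ 2) * ha
    have h2 : (a' * a) • (1 : B) = 1 := by rw [mul_comm, ha, one_smul]
    rw [h1, h2]
    abel
  cases b
  · have := key A' A (by rw [mul_comm]; exact hA) (by rw [hd]; ring)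
    simpa [ltr] using this
  · simpa [ltr] using key A A' hA hd

theorem wd_inv (h : IsTLr 4 d e) (hA : A * A' = 1) (hd : d = -A ^ 2 - A' ^ 2) 
    (w : List (Bool × ℕ)) (hw : ∀ x ∈ w, x.2 + 1 < 4) : 
    wd A A' e w * wd A A' e (invL w) = 1 := by
  induction w with
  | nil => simp [wd, invL]
  | cons x w ih =>
    have h1 : invL (x :: w) = invL w ++ [(!x.1, x.2)] := by simp [invL]
    have h2 : wd A A' e (x :: w) = ltr A A' e x * wd A A' e w := by simp [wd]
    have h3 : wd A A' e [(!x.1, x.2)] = ltr A A' e (!x.1, x.2) := by simp [wd]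
    have h4 := ih (fun j hj => hw j (List.mem_cons_of_mem _ hj))
    rw [h1, wd_append, h2, h3, mul_assoc, ← mul_assoc (wd A A' e w), h4, one_mul]
    exact ltr_inv h hA hd x.1 x.2 (hw x List.mem_cons_self)

theorem wd_inv' (h : IsTLr 4 d e) (hA : A * A' = 1) (hd : d = -A ^ 2 - A' ^ 2) 
    (w : List (Bool × ℕ)) (hw : ∀ x ∈ w, x.2 + 1 < 4) : 
    wd A A' e (invL w) * wd A A' e w = 1 := by
  have := wd_inv h hA hd (invL w) (invL_lt hw)
  rwa [invL_invL] at this

/-- congruent to a scalar -/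
def Cg (α : R) (x : B) : Prop := ∃ (r : R) (z : B), x = r • (1 : B) + α • z

/-- congruent to one -/
def C1 (α : R) (x : B) : Prop := ∃ z : B, x = 1 + α • z

theorem C1.cg {α : R} {x : B} (h : C1 α x) : Cg α x := by
  obtain ⟨z, rfl⟩ := h
  exact ⟨1, z, by rw [one_smul]⟩

theorem C1_of_eq {α β : R} {x : B} (h : C1 α x) (hαβ : α = β) : C1 β x := hαβ ▸ h

theorem comm_C1 (h : IsTLr 4 d e) (hA : A * A' = 1) (hd : d = -A ^ 2 - A' ^ 2) 
    {x y : List (Bool × ℕ)} (hx : ∀ z ∈ x, z.2 + 1 < 4) (hy : ∀ z ∈ y, z.2 + 1 < 4) {α β : R} 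
    (h1 : Cg α (wd A A' e x)) (h2 : Cg β (wd A A' e y)) : C1 (α * β) (wd A A' e (comW x y)) := by
  obtain ⟨r, z, hz⟩ := h1
  obtain ⟨r', z', hz'⟩ := h2
  unfold comW
  rw [wd_append, wd_append, wd_append]
  set X := wd A A' e x with hX
  set Y := wd A A' e y with hY
  set X' := wd A A' e (invL x) with hX'
  set Y' := wd A A' e (invL y) with hY'
  have i1 : X * X' = 1 := wd_inv h hA hd x hx
  have i2 : Y * Y' = 1 := wd_inv h hA hd y hy
  refine ⟨(z * z' - z' * z) * (X' * Y'), ?_⟩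
  have h3 : X * Y - Y * X = (α * β) • (z * z' - z' * z) := by
    rw [hz, hz']
    simp only [add_mul, mul_add, smul_mul_assoc, mul_smul_comm, one_mul, mul_one, smul_sub, 
      smul_smul]
    module
  have h4 : Y * X * (X' * Y') = 1 := by
    calc Y * X * (X' * Y') = Y * (X * X') * Y' := by noncomm_ring
      _ = 1 := by rw [i1, mul_one, i2]
  calc X * (Y * (X' * Y')) = Y * X * (X' * Y') + (X * Y - Y * X) * (X' * Y') := by noncomm_ring
    _ = _ := by rw [h4, h3, smul_mul_assoc]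

/-- the quotient of two congruent words -/
theorem quot_C1 (h : IsTLr 4 d e) (hA : A * A' = 1) (hd : d = -A ^ 2 - A' ^ 2) 
    {x y : List (Bool × ℕ)} (hy : ∀ z ∈ y, z.2 + 1 < 4) {α : R} 
    (h1 : ∃ z : B, wd A A' e x = wd A A' e y + α • z) : C1 α (wd A A' e (x ++ invL y)) := by
  obtain ⟨z, hz⟩ := h1
  refine ⟨z * wd A A' e (invL y), ?_⟩
  rw [wd_append, hz, add_mul, wd_inv h hA hd y hy, smul_mul_assoc]

/-- powers -/
theorem pow30 {α : R} (hα : (30 : R) ∣ α) {x : B} (h : C1 α x) : C1 (30 * α) (x ^ 30) := by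
  obtain ⟨z, rfl⟩ := h
  obtain ⟨β, rfl⟩ := hα
  -- (1 + y)^30 = 1 + 30 y + y^2 * q
  have key : ∀ n : ℕ, ∃ q : B, (1 + (30 * β) • z) ^ n = 1 + (n : R) • (30 * β) • z + 
      ((30 * β) * (30 * β)) • q := by
    intro n
    induction n with
    | zero => exact ⟨0, by simp⟩
    | succ n ih =>
      obtain ⟨q, hq⟩ := ih
      refine ⟨q + (n : R) • (z * z) + (30 * β) • (q * z), ?_⟩
      rw [pow_succ, hq]
      simp only [add_mul, mul_add, smul_mul_assoc, mul_smul_comm, one_mul, mul_one, smul_smul, 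
        smul_add]
      push_cast
      module
  obtain ⟨q, hq⟩ := key 30
  refine ⟨z + β • q, ?_⟩
  rw [hq]
  push_cast
  module

theorem pow30s {α : R} (hα : (30 : R) ∣ α) {x : B} (h : C1 α x) (s : ℕ) : 
    C1 (30 ^ s * α) (x ^ (30 ^ s)) := by
  induction s with
  | zero => simpa using h
  | succ s ih =>
    have h1 := pow30 (Dvd.dvd.mul_left hα (30 ^ s)) ih
    rw [← pow_mul, ← pow_succ] at h1
    exact C1_of_eq h1 (by ring)

theorem wd_replicate (w : List (Bool × ℕ)) (n : ℕ) : 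
    wd A A' e (List.replicate n w).flatten = wd A A' e w ^ n := by
  induction n with
  | zero => simp [wd]
  | succ n ih => rw [List.replicate_succ, List.flatten_cons, wd_append, ih, pow_succ']

/-- powers of a generator -/
theorem wd_gen (h : IsTLr 4 d e) (hA : A * A' = 1) (hd : d = -A ^ 2 - A' ^ 2) {i : ℕ} (hi : i + 1 < 4) 
    (n : ℕ) : wd A A' e (List.replicate n (true, i)) = 
      A ^ n • (1 : B) + (A ^ n * (A' * A') * ∑ j ∈ Finset.range n, (-A' ^ 4) ^ j) • e i := by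
  induction n with
  | zero => simp [wd]
  | succ n ih =>
    have h1 : wd A A' e (List.replicate (n+1) (true, i)) = 
      ltr A A' e (true, i) * wd A A' e (List.replicate n (true, i)) := by 
      simp [wd, List.replicate_succ]
    have hs := h.sq i hi
    rw [h1, ih, ltr_pos hA]
    simp only [add_mul, mul_add, smul_mul_assoc, mul_smul_comm, one_mul, mul_one, hs, smul_smul, 
        smul_add]
    rw [Finset.sum_range_succ', pow_zero]
    have h2 : ∑ k ∈ Finset.range n, (-A' ^ 4) ^ (k + 1) = 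
        (-A' ^ 4) * ∑ k ∈ Finset.range n, (-A' ^ 4) ^ k := by
      rw [Finset.mul_sum]
      refine Finset.sum_congr rfl fun k _ => ?_
      rw [pow_succ]; ring
    rw [h2]
    set g := ∑ k ∈ Finset.range n, (-A' ^ 4) ^ k
    have h3 : A * (A ^ n * (A' * A') * g) + (A * (A ^ n * (A' * A')) + 
      A * (A ^ n * (A' * A') * g * (A' * A' * d))) = 
      A ^ (n + 1) * (A' * A') * (-A' ^ 4 * g + 1) := by
      rw [hd]
      have : A' * A' * (-A ^ 2 - A' ^ 2) = -(1 + A' ^ 4) := by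
        linear_combination (-(A * A') - 1) * hA
      rw [this]
      ring
    rw [← h3]
    module

theorem gen_Cg (h : IsTLr 4 d e) (hA : A * A' = 1) (hd : d = -A ^ 2 - A' ^ 2) {i : ℕ} 
    (hi : i + 1 < 4) (n : ℕ) : 
    Cg (∑ j ∈ Finset.range n, (-A' ^ 4) ^ j) (wd A A' e (List.replicate n (true, i))) := by
  refine ⟨A ^ n, (A ^ n * (A' * A')) • e i, ?_⟩
  rw [wd_gen h hA hd hi, smul_smul]
  congr 2
  ring

end alg

/-! ### the words -/

def v1 (u : List ℕ) (n : ℕ) : List ℕ := 2 :: (pw u n ++ [0])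
def v2 (u : List ℕ) (n : ℕ) : List ℕ := 0 :: (pw u n ++ [2])

/-- `σ_3 u^n σ_1 σ_3⁻¹ u^{-n} σ_1⁻¹` -/
def kap (u : List ℕ) (n : ℕ) : List (Bool × ℕ) := pos (v1 u n) ++ invL (pos (v2 u n))

/-- the word which is congruent to one modulo `30` -/
def x30 : List (Bool × ℕ) := comW (comW (kap u2 4) (kap u3 3)) (kap u5 5)

theorem pw_lt {u : List ℕ} (hu : ∀ i ∈ u, i < 3) (n : ℕ) : ∀ i ∈ pw u n, i < 3 := by
  intro i hi
  obtain ⟨l, hl, hi⟩ := List.mem_flatten.1 hi
  rw [(List.mem_replicate.1 hl).2] at hi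
  exact hu i hi

theorem v1_lt {u : List ℕ} (hu : ∀ i ∈ u, i < 3) (n : ℕ) : ∀ i ∈ v1 u n, i < 3 := by
  intro i hi
  simp only [v1, List.mem_cons, List.mem_append, List.not_mem_nil, or_false] at hi
  rcases hi with rfl | hi | rfl
  · omega
  · exact pw_lt hu n i hi
  · omega

theorem v2_lt {u : List ℕ} (hu : ∀ i ∈ u, i < 3) (n : ℕ) : ∀ i ∈ v2 u n, i < 3 := by
  intro i hi
  simp only [v2, List.mem_cons, List.mem_append, List.not_mem_nil, or_false] at hi
  rcases hi with rfl | hi | rfl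
  · omega
  · exact pw_lt hu n i hi
  · omega

theorem pos_lt {w : List ℕ} (hw : ∀ i ∈ w, i < 3) : ∀ x ∈ pos w, x.2 + 1 < 4 := by
  intro x hx
  obtain ⟨i, hi, rfl⟩ := List.mem_map.1 hx
  have := hw i hi
  simp only
  omega

theorem kap_lt {u : List ℕ} (hu : ∀ i ∈ u, i < 3) (n : ℕ) : ∀ x ∈ kap u n, x.2 + 1 < 4 := by
  intro x hx
  rcases List.mem_append.1 hx with h | h
  · exact pos_lt (v1_lt hu n) x h
  · exact invL_lt (pos_lt (v2_lt hu n)) x h

theorem u2_lt : ∀ i ∈ u2, i < 3 := by decide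
theorem u3_lt : ∀ i ∈ u3, i < 3 := by decide
theorem u5_lt : ∀ i ∈ u5, i < 3 := by decide

section

variable {R B : Type*} [CommRing R] [Ring B] [Algebra R B] {A A' d : R} {e : ℕ → B}

theorem kap_C1 (h : IsTLr 4 d e) (hA : A * A' = 1) (hd : d = -A ^ 2 - A' ^ 2) {p : ℕ} (hp : 1 ≤ p)
    {u : List ℕ} (hu : ∀ i ∈ u, i < 3) (n : ℕ) (hs : samep (runL p (v1 u n)) (runL p (v2 u n)) = true) :
    C1 (p : R) (wd A A' e (kap u n)) := by
  apply quot_C1 h hA hd (pos_lt (v2_lt hu n))
  apply pos_congr h hA hd hp (v1_lt hu n) (v2_lt hu n) _ hs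
  simp [v1, v2]

theorem x30_C1 (h : IsTLr 4 d e) (hA : A * A' = 1) (hd : d = -A ^ 2 - A' ^ 2) :
    C1 (30 : R) (wd A A' e x30) := by
  have h2 := kap_C1 (A := A) (A' := A') h hA hd (by norm_num) u2_lt 4 chk2
  have h3 := kap_C1 (A := A) (A' := A') h hA hd (by norm_num) u3_lt 3 chk3
  have h5 := kap_C1 (A := A) (A' := A') h hA hd (by norm_num) u5_lt 5 chk5
  have h6 := comm_C1 h hA hd (kap_lt u2_lt 4) (kap_lt u3_lt 3) h2.cg h3.cg
  have h30 := comm_C1 h hA hd (comW_lt (kap_lt u2_lt 4) (kap_lt u3_lt 3)) (kap_lt u5_lt 5) h6.cg h5.cg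
  exact C1_of_eq h30 (by push_cast; norm_num)

end

end Pool.Agent.J5.H37.UJ
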