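import Pool.Agent.J5.H37.UJ.Func

/-!
# The reduced Burau representation and iterated commutators
-/

set_option autoImplicit false

namespace Pool.Agent.J5.H37.UJ

open LaurentPolynomial Pool.Agent.H891R2.Jones Pool.Agent.W639.RB Pool.Agent.Y463.SK

section mat

variable {K : Type*} [CommRing K]

/-- the generators on the three-dimensional cell module -/
def E3 (d : K) : ℕ → Matrix (Fin 3) (Fin 3) K
  | 0 => !![d, 1, 0; 0, 0, 0; 0, 0, 0]
  | 1 => !![0, 0, 0; 1, d, 1; 0, 0, 0]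
  | 2 => !![0, 0, 0; 0, 0, 0; 0, 1, d]
  | _ => 0

theorem isTLr_E3 (d : K) : IsTLr 4 d (E3 d) where
  sq i hi := by
    obtain rfl | rfl | rfl : i = 0 ∨ i = 1 ∨ i = 2 := by omega
    all_goals
      ext a b
      fin_cases a <;> fin_cases b <;> simp [E3, Matrix.mul_apply, Fin.sum_univ_three]
  up i hi := by
    obtain rfl | rfl : i = 0 ∨ i = 1 := by omega
    all_goals
      ext a b
      fin_cases a <;> fin_cases b <;> simp [E3, Matrix.mul_apply, Fin.sum_univ_three]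
  down i hi := by
    obtain rfl | rfl : i = 0 ∨ i = 1 := by omega
    all_goals
      ext a b
      fin_cases a <;> fin_cases b <;> simp [E3, Matrix.mul_apply, Fin.sum_univ_three]
  far i j hj hij := by
    obtain ⟨rfl, rfl⟩ : i = 0 ∧ j = 2 := by omega
    ext a b
    fin_cases a <;> fin_cases b <;> simp [E3, Matrix.mul_apply, Fin.sum_univ_three]

theorem scalar_of_comm (d : K) (X : Matrix (Fin 3) (Fin 3) K) 
    (h : ∀ i, i < 3 → X * E3 d i = E3 d i * X) : X = X 0 0 • (1 : Matrix (Fin 3) (Fin 3) K) := by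
  have h0 := h 0 (by omega)
  have h1 := h 1 (by omega)
  have h2 := h 2 (by omega)
  have g : ∀ (i : ℕ) (a b : Fin 3), (X * E3 d i) a b = (E3 d i * X) a b → 
      X a 0 * E3 d i 0 b + X a 1 * E3 d i 1 b + X a 2 * E3 d i 2 b = 
      E3 d i a 0 * X 0 b + E3 d i a 1 * X 1 b + E3 d i a 2 * X 2 b := by
    intro i a b h
    rw [Matrix.mul_apply, Matrix.mul_apply, Fin.sum_univ_three, Fin.sum_univ_three] at h
    exact h
  have x10 := g 0 1 1 (by rw [h0])
  have x20 := g 0 2 1 (by rw [h0])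
  have x01 := g 1 0 0 (by rw [h1])
  have x21 := g 1 2 0 (by rw [h1])
  have x02 := g 2 0 1 (by rw [h2])
  have x12 := g 2 1 1 (by rw [h2])
  have e1 := g 0 0 1 (by rw [h0])
  have e2 := g 2 2 1 (by rw [h2])
  simp [E3] at x10 x20 x01 x21 x02 x12 e1 e2
  rw [x01, mul_zero, zero_add] at e1
  rw [x21, mul_zero, add_zero] at e2
  ext a b
  fin_cases a <;> fin_cases b <;> simp [x10, x20, x01, x21, x02, x12, e1, e2]

end mat

/-- the loop value -/
noncomputable def dd : ℤ[T;T⁻¹] := -(T 1) ^ 2 - (T (-1)) ^ 2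

/-- the matrix of a word -/
noncomputable def MB (w : List (Bool × ℕ)) : Matrix (Fin 3) (Fin 3) ℤ[T;T⁻¹] := 
  wd (T 1 : ℤ[T;T⁻¹]) (T (-1)) (E3 dd) w

theorem MB_inv {w : List (Bool × ℕ)} (hw : ∀ x ∈ w, x.2 + 1 < 4) : MB w * MB (invL w) = 1 :=
  wd_inv (isTLr_E3 dd) T_mul_inv rfl w hw

theorem MB_comW (x y : List (Bool × ℕ)) : 
    MB (comW x y) = MB x * (MB y * (MB (invL x) * MB (invL y))) := by
  unfold MB comW
  rw [wd_append, wd_append, wd_append]

theorem det_comW {x y : List (Bool × ℕ)} (hx : ∀ z ∈ x, z.2 + 1 < 4) (hy : ∀ z ∈ y, z.2 + 1 < 4) : 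
    (MB (comW x y)).det = 1 := by
  have h1 := congrArg Matrix.det (MB_inv hx)
  have h2 := congrArg Matrix.det (MB_inv hy)
  rw [Matrix.det_mul, Matrix.det_one] at h1 h2
  rw [MB_comW, Matrix.det_mul, Matrix.det_mul, Matrix.det_mul]
  linear_combination (MB y).det * (MB (invL y)).det * h1 + h2

theorem comm_of_comW {x y : List (Bool × ℕ)} (hx : ∀ z ∈ x, z.2 + 1 < 4) 
    (hy : ∀ z ∈ y, z.2 + 1 < 4) (h : MB (comW x y) = 1) : MB x * MB y = MB y * MB x := by
  have i1 : MB (invL x) * MB x = 1 := by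
    have := MB_inv (invL_lt hx)
    rwa [invL_invL] at this
  have i2 : MB (invL y) * MB y = 1 := by
    have := MB_inv (invL_lt hy)
    rwa [invL_invL] at this
  rw [MB_comW] at h
  calc MB x * MB y = MB x * (MB y * (MB (invL x) * (MB (invL y) * MB y) * MB x)) := by
        rw [i2, mul_one, i1, mul_one]
    _ = MB x * (MB y * (MB (invL x) * MB (invL y))) * (MB y * MB x) := by noncomm_ring
    _ = MB y * MB x := by rw [h, one_mul]

/-- the divisor `(1 - t^(2n)) / (1 + t)`, `t = A⁻⁴` -/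
noncomputable def gg (n : ℕ) : ℤ[T;T⁻¹] := ∑ j ∈ Finset.range (2 * n), (-(T (-1)) ^ 4) ^ j

theorem gg_ne {n : ℕ} (hn : 1 ≤ n) : gg n ≠ 0 := by
  intro h
  have h1 : gg n * (1 + (T (-1)) ^ 4) = 1 - T (-(8 * n)) := by
    unfold gg
    have h2 := geom_sum_mul (-(T (-1) : ℤ[T;T⁻¹]) ^ 4) (2 * n)
    have h3 : (-(T (-1) : ℤ[T;T⁻¹]) ^ 4) ^ (2 * n) = T (-(8 * n)) := by
      rw [pow_mul, neg_sq, T_pow, T_pow, T_pow]
      congr 1
      push_cast
      ring
    rw [h3] at h2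
    linear_combination -h2
  rw [h, zero_mul] at h1
  have h4 : (T (-(8 * n)) : ℤ[T;T⁻¹]) = T 0 := by
    rw [T_zero]
    linear_combination h1
  have h5 := (Finsupp.single_left_inj (one_ne_zero (α := ℤ))).1 (by exact congrArg AddMonoidAlgebra.coeff h4)
  omega

theorem scalar_one {X : Matrix (Fin 3) (Fin 3) ℤ[T;T⁻¹]} (hdet : X.det = 1) {c : ℤ[T;T⁻¹]} 
    (hX : X = c • (1 : Matrix (Fin 3) (Fin 3) ℤ[T;T⁻¹])) : X = 1 := by
  rw [hX, Matrix.det_smul, Matrix.det_one, mul_one, Fintype.card_fin] at hdet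
  have h1 : (c - 1) * (c ^ 2 + c + 1) = 0 := by linear_combination hdet
  rcases mul_eq_zero.1 h1 with h2 | h2
  · rw [hX, sub_eq_zero.1 h2, one_smul]
  · exfalso
    have h3 := congrArg (LaurentPolynomial.eval₂ (RingHom.id ℤ) (1 : ℤˣ)) h2
    simp only [map_add, map_pow, map_one, map_zero] at h3
    set n := LaurentPolynomial.eval₂ (RingHom.id ℤ) (1 : ℤˣ) c
    nlinarith [sq_nonneg (2 * n + 1)]

/-- the commutator with a suitable power of a generator is not trivial -/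
theorem exists_comm {x : List (Bool × ℕ)} (hx : ∀ z ∈ x, z.2 + 1 < 4) (hdet : (MB x).det = 1) 
    (hne : MB x ≠ 1) {n : ℕ} (hn : 1 ≤ n) : 
    ∃ i, i + 1 < 4 ∧ MB (comW x (List.replicate (2 * n) (true, i))) ≠ 1 := by
  by_contra hcon
  push Not at hcon
  apply hne
  refine scalar_one hdet (scalar_of_comm dd (MB x) fun i hi => ?_)
  have h1 := hcon i (by omega)
  have hy : ∀ z ∈ List.replicate (2 * n) (true, i), z.2 + 1 < 4 := by
    intro z hz
    rw [(List.mem_replicate.1 hz).2]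
    show i + 1 < 4
    omega
  have h2 := comm_of_comW hx hy h1
  have h3 : MB (List.replicate (2 * n) (true, i)) = (T 1 : ℤ[T;T⁻¹]) ^ (2 * n) • 
      (1 : Matrix (Fin 3) (Fin 3) ℤ[T;T⁻¹]) + ((T 1 : ℤ[T;T⁻¹]) ^ (2 * n) * (T (-1) * T (-1)) * gg n) • 
        E3 dd i := wd_gen (isTLr_E3 dd) T_mul_inv rfl (by omega) (2 * n)
  rw [h3, mul_add, add_mul, mul_smul_comm, mul_smul_comm, smul_mul_assoc, smul_mul_assoc, mul_one,
    one_mul] at h2
  have h4 := add_left_cancel h2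
  have h5 : (T 1 : ℤ[T;T⁻¹]) ^ (2 * n) * (T (-1) * T (-1)) * gg n ≠ 0 := by
    have h6 : (T 1 : ℤ[T;T⁻¹]) ^ (2 * n) * (T (-1) * T (-1)) = T (2 * n - 2) := by
      rw [T_pow, ← T_add, ← T_add]
      congr 1
      push_cast
      ring
    rw [h6]
    intro h7
    apply gg_ne hn
    have h8 : (T (-(2 * n - 2)) * T (2 * n - 2) : ℤ[T;T⁻¹]) = 1 := by
      rw [← T_add, neg_add_cancel, T_zero]
    calc gg n = (T (-(2 * n - 2)) * T (2 * n - 2)) * gg n := by rw [h8, one_mul]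
      _ = T (-(2 * n - 2)) * (T (2 * n - 2) * gg n) := by ring
      _ = 0 := by rw [h7, mul_zero]
  refine Matrix.ext fun a b => ?_
  have h6 := congrFun (congrFun h4 a) b
  rw [Matrix.smul_apply, Matrix.smul_apply, smul_eq_mul, smul_eq_mul] at h6
  exact mul_left_cancel₀ h5 h6

end Pool.Agent.J5.H37.UJ
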