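import Pool.Agent.J5.H37.UJ.Burau

/-!
# Iterated commutators
-/

set_option autoImplicit false

namespace Pool.Agent.J5.H37.UJ

open LaurentPolynomial Pool.Agent.H891R2.Jones Pool.Agent.W639.RB Pool.Agent.Y463.SK

/-! ### the matrix of the first word -/

/-- the action of a letter on triples of numbers modulo `q` -/
def st3 (q a a' d : ℕ) (x : Bool × ℕ) (v : ℕ × ℕ × ℕ) : ℕ × ℕ × ℕ :=
  match x with
  | (true, 0) => ((a * v.1 + a' * (d * v.1 + v.2.1)) % q, (a * v.2.1) % q, (a * v.2.2) % q)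
  | (true, 1) => ((a * v.1) % q, (a * v.2.1 + a' * (v.1 + d * v.2.1 + v.2.2)) % q, (a * v.2.2) % q)
  | (true, 2) => ((a * v.1) % q, (a * v.2.1) % q, (a * v.2.2 + a' * (v.2.1 + d * v.2.2)) % q)
  | (true, _) => ((a * v.1) % q, (a * v.2.1) % q, (a * v.2.2) % q)
  | (false, 0) => ((a' * v.1 + a * (d * v.1 + v.2.1)) % q, (a' * v.2.1) % q, (a' * v.2.2) % q)
  | (false, 1) => ((a' * v.1) % q, (a' * v.2.1 + a * (v.1 + d * v.2.1 + v.2.2)) % q, (a' * v.2.2) % q)
  | (false, 2) => ((a' * v.1) % q, (a' * v.2.1) % q, (a' * v.2.2 + a * (v.2.1 + d * v.2.2)) % q)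
  | (false, _) => ((a' * v.1) % q, (a' * v.2.1) % q, (a' * v.2.2) % q)

theorem run3 : x30.foldr (st3 101 2 51 21) (1, 0, 0) = (32, 20, 6) := by
  decide +kernel

/-- the vector of a triple -/
def vec {q : ℕ} (v : ℕ × ℕ × ℕ) : Fin 3 → ZMod q := ![(v.1 : ZMod q), (v.2.1 : ZMod q), (v.2.2 : ZMod q)]

theorem st3_eq {q : ℕ} (a a' d : ℕ) (x : Bool × ℕ) (v : ℕ × ℕ × ℕ) : 
    (ltr (a : ZMod q) (a' : ZMod q) (E3 (d : ZMod q)) x).mulVec (vec v) = vec (st3 q a a' d x v) := by
  obtain ⟨b, i⟩ := x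
  rcases i with _ | _ | _ | i <;> cases b
  all_goals
    funext j
    fin_cases j <;>
    simp [ltr, E3, st3, vec, Matrix.mulVec, dotProduct, 
      Fin.sum_univ_three, Matrix.smul_apply, Matrix.add_apply, Matrix.one_apply, smul_eq_mul] <;> 
    try ring

theorem run3_eq {q : ℕ} (a a' d : ℕ) (w : List (Bool × ℕ)) (v : ℕ × ℕ × ℕ) : 
    (wd (a : ZMod q) (a' : ZMod q) (E3 (d : ZMod q)) w).mulVec (vec v) = 
      vec (w.foldr (st3 q a a' d) v) := by
  induction w with
  | nil => simp [wd]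
  | cons x w ih =>
    have h1 : wd (a : ZMod q) (a' : ZMod q) (E3 (d : ZMod q)) (x :: w) = 
      ltr (a : ZMod q) (a' : ZMod q) (E3 (d : ZMod q)) x * wd (a : ZMod q) (a' : ZMod q) 
        (E3 (d : ZMod q)) w := by simp [wd]
    rw [h1, ← Matrix.mulVec_mulVec, ih, st3_eq]
    rfl

theorem E3_map {K K' : Type*} [CommRing K] [CommRing K'] (φ : K →+* K') (d : K) (i : ℕ) : 
    φ.mapMatrix (E3 d i) = E3 (φ d) i := by
  match i with
  | 0 => ext a b; fin_cases a <;> fin_cases b <;> simp [E3]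
  | 1 => ext a b; fin_cases a <;> fin_cases b <;> simp [E3]
  | 2 => ext a b; fin_cases a <;> fin_cases b <;> simp [E3]
  | _ + 3 => simp [E3]

theorem smul_map {K K' : Type*} [CommRing K] [CommRing K'] (φ : K →+* K') (r : K) 
    (X : Matrix (Fin 3) (Fin 3) K) : φ.mapMatrix (r • X) = φ r • φ.mapMatrix X := by
  ext a b
  simp

theorem wd_map {K K' : Type*} [CommRing K] [CommRing K'] (φ : K →+* K') (A A' d : K) 
    (w : List (Bool × ℕ)) : φ.mapMatrix (wd A A' (E3 d) w) = wd (φ A) (φ A') (E3 (φ d)) w := by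
  unfold wd
  rw [map_list_prod, List.map_map]
  congr 1
  apply List.map_congr_left
  intro x _
  rw [Function.comp_apply]
  unfold ltr
  split_ifs <;> rw [map_add, smul_map, smul_map, map_one, E3_map]

/-- the evaluation at `A = 2` modulo `101` -/
noncomputable def ph : ℤ[T;T⁻¹] →+* ZMod 101 := 
  LaurentPolynomial.eval₂ (Int.castRingHom (ZMod 101)) (ZMod.unitOfCoprime 2 (by norm_num))

theorem ph_T1 : ph (T 1) = ((2 : ℕ) : ZMod 101) := by
  unfold ph
  rw [LaurentPolynomial.eval₂_T]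
  simp

theorem ph_Tm1 : ph (T (-1)) = ((51 : ℕ) : ZMod 101) := by
  have h1 : ph (T 1) * ph (T (-1)) = 1 := by rw [← map_mul, T_mul_inv, map_one]
  rw [ph_T1] at h1
  have h2 : ((51 : ℕ) : ZMod 101) * ((2 : ℕ) : ZMod 101) = 1 := by decide
  calc ph (T (-1)) = (((51 : ℕ) : ZMod 101) * ((2 : ℕ) : ZMod 101)) * ph (T (-1)) := by rw [h2, one_mul]
    _ = ((51 : ℕ) : ZMod 101) * (((2 : ℕ) : ZMod 101) * ph (T (-1))) := by ring
    _ = _ := by rw [h1, mul_one]

theorem ph_dd : ph dd = ((21 : ℕ) : ZMod 101) := by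
  unfold dd
  rw [map_sub, map_neg, map_pow, map_pow, ph_T1, ph_Tm1]
  decide

theorem MB_x30 : MB x30 ≠ 1 := by
  intro h
  have h1 := wd_map ph (T 1 : ℤ[T;T⁻¹]) (T (-1)) dd x30
  have h2 : wd (T 1 : ℤ[T;T⁻¹]) (T (-1)) (E3 dd) x30 = 1 := h
  rw [h2, map_one, ph_T1, ph_Tm1, ph_dd] at h1
  have h3 := run3_eq (q := 101) 2 51 21 x30 (1, 0, 0)
  rw [← h1, Matrix.one_mulVec, run3] at h3
  have h4 := congrFun h3 1
  simp only [vec, Matrix.cons_val_one, Matrix.cons_val_zero] at h4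
  exact absurd h4 (by decide)

/-! ### the algebra -/

/-- the Temperley–Lieb algebra on four strands -/
noncomputable abbrev S0 : Subalgebra ℤ[T;T⁻¹] (BB 4) := 
  Algebra.adjoin ℤ[T;T⁻¹] (Set.range (EB 4))

/-- the generators -/
noncomputable def es (i : ℕ) : S0 := ⟨EB 4 i, Algebra.subset_adjoin ⟨i, rfl⟩⟩

theorem isTLr_es : IsTLr 4 dd es where
  sq i hi := Subtype.ext ((isTLr_EB 4).sq i hi)
  up i hi := Subtype.ext ((isTLr_EB 4).up i hi)
  down i hi := Subtype.ext ((isTLr_EB 4).down i hi)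
  far i j hj hij := Subtype.ext ((isTLr_EB 4).far i j hj hij)

/-- the element of a word -/
noncomputable def sw (w : List (Bool × ℕ)) : S0 := wd (T 1 : ℤ[T;T⁻¹]) (T (-1)) es w

theorem sw_coe (w : List (Bool × ℕ)) : ((sw w : S0) : BB 4) = bb 4 w := by
  induction w with
  | nil => rfl
  | cons x w ih =>
    have h1 : sw (x :: w) = ltr (T 1 : ℤ[T;T⁻¹]) (T (-1)) es x * sw w := by simp [sw, wd]
    have h2 : bb 4 (x :: w) = ltr (T 1 : ℤ[T;T⁻¹]) (T (-1)) (EB 4) x * bb 4 w := by simp [bb, wd]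
    rw [h1, h2, Subalgebra.coe_mul, ih]
    congr 1
    unfold ltr
    split_ifs <;> rfl

/-- pure words which are congruent to one modulo `h` and not trivial -/
structure Good (h : ℤ[T;T⁻¹]) (x : List (Bool × ℕ)) : Prop where
  lt : ∀ z ∈ x, z.2 + 1 < 4
  perm : permL x = 1
  cost : ∀ U : ℕ → ℤ, costS x U = 0
  c1 : C1 h (sw x)
  det : (MB x).det = 1
  ne : MB x ≠ 1

theorem permL_gen (n i : ℕ) : permL (List.replicate (2 * n) (true, i)) = 1 := by
  unfold permL
  rw [List.map_replicate, List.prod_replicate, pow_mul, pow_two, Equiv.swap_mul_self, one_pow]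

theorem good_step {h : ℤ[T;T⁻¹]} {x : List (Bool × ℕ)} (hx : Good h x) {n : ℕ} (hn : 1 ≤ n) : 
    ∃ i, Good (h * gg n) (comW x (List.replicate (2 * n) (true, i))) := by
  obtain ⟨i, hi, hne⟩ := exists_comm hx.lt hx.det hx.ne hn
  have hy : ∀ z ∈ List.replicate (2 * n) (true, i), z.2 + 1 < 4 := by
    intro z hz
    rw [(List.mem_replicate.1 hz).2]
    exact hi
  refine ⟨i, comW_lt hx.lt hy, permL_comW hx.perm (permL_gen n i), 
    costS_comW hx.perm (permL_gen n i), ?_, det_comW hx.lt hy, hne⟩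
  exact comm_C1 isTLr_es T_mul_inv rfl hx.lt hy hx.c1.cg (gen_Cg isTLr_es T_mul_inv rfl hi (2 * n))

theorem good_iter {h : ℤ[T;T⁻¹]} {x : List (Bool × ℕ)} (hx : Good h x) {n : ℕ} (hn : 1 ≤ n) (r : ℕ) : 
    ∃ y, Good (h * gg n ^ r) y := by
  induction r with
  | zero => exact ⟨x, by simpa using hx⟩
  | succ r ih =>
    obtain ⟨y, hy⟩ := ih
    obtain ⟨i, hi⟩ := good_step hy hn
    exact ⟨_, by rw [pow_succ, ← mul_assoc]; exact hi⟩

/-! ### the first word -/

theorem pos_pw (u : List ℕ) (n : ℕ) : pos (pw u n) = (List.replicate n (pos u)).flatten := by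
  unfold pos pw
  rw [List.map_flatten, List.map_replicate]

theorem permL_kap {u : List ℕ} {n : ℕ} (h : permL (pos (pw u n)) = 1) : permL (kap u n) = 1 := by
  have h1 : permL (pos (v1 u n)) = Equiv.swap 2 3 * Equiv.swap 0 1 := by
    have : pos (v1 u n) = [(true, 2)] ++ (pos (pw u n) ++ [(true, 0)]) := by simp [pos, v1]
    rw [this, permL_append, permL_append, h]
    simp [permL]
  have h2 : permL (pos (v2 u n)) = Equiv.swap 0 1 * Equiv.swap 2 3 := by
    have : pos (v2 u n) = [(true, 0)] ++ (pos (pw u n) ++ [(true, 2)]) := by simp [pos, v2]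
    rw [this, permL_append, permL_append, h]
    simp [permL]
  have h3 : (Equiv.swap 2 3 * Equiv.swap 0 1 : Equiv.Perm ℕ) = Equiv.swap 0 1 * Equiv.swap 2 3 := by
    apply Equiv.Perm.Disjoint.commute
    intro x
    by_cases hx : x = 2 ∨ x = 3
    · right
      apply Equiv.swap_apply_of_ne_of_ne <;> omega
    · left
      push Not at hx
      exact Equiv.swap_apply_of_ne_of_ne hx.1 hx.2
  unfold kap
  rw [permL_append, h1, h3, ← h2]
  exact permL_inv _

/-- letters -/
def lets (u : List ℕ) : List (Letter 4) := u.map (fun i => (true, (Fin.ofNat 3 i : Fin (4 - 1))))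

theorem toN_lets {u : List ℕ} (hu : ∀ i ∈ u, i < 3) : toN (lets u) = pos u := by
  unfold toN lets pos
  rw [List.map_map]
  apply List.map_congr_left
  intro i hi
  have := hu i hi
  simp only [Function.comp_apply, Prod.mk.injEq, true_and]
  show i % 3 = i
  omega

theorem permL_pw {u : List ℕ} (hu : ∀ i ∈ u, i < 3) {n : ℕ} 
    (h : permW (List.replicate n (lets u)).flatten = 1) : permL (pos (pw u n)) = 1 := by
  rw [pos_pw, ← toN_lets hu, ← toN_replicate]
  exact permL_of_pure h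

theorem permL_kap2 : permL (kap u2 4) = 1 := permL_kap (permL_pw u2_lt (by decide +kernel))
theorem permL_kap3 : permL (kap u3 3) = 1 := permL_kap (permL_pw u3_lt (by decide +kernel))
theorem permL_kap5 : permL (kap u5 5) = 1 := permL_kap (permL_pw u5_lt (by decide +kernel))

theorem good_x30 : Good 30 x30 where
  lt := comW_lt (comW_lt (kap_lt u2_lt 4) (kap_lt u3_lt 3)) (kap_lt u5_lt 5)
  perm := permL_comW (permL_comW permL_kap2 permL_kap3) permL_kap5
  cost := costS_comW (permL_comW permL_kap2 permL_kap3) permL_kap5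
  c1 := x30_C1 isTLr_es T_mul_inv rfl
  det := det_comW (comW_lt (kap_lt u2_lt 4) (kap_lt u3_lt 3)) (kap_lt u5_lt 5)
  ne := MB_x30

end Pool.Agent.J5.H37.UJ
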