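import Pool.Agent.J5.H37.UJ.Tw

/-!
# Iterated commutators with full twists on three strands
-/

set_option autoImplicit false

namespace Pool.Agent.J5.H37.UJ

open LaurentPolynomial Pool.Agent.H891R2.Jones Pool.Agent.W639.RB Pool.Agent.Y463.SK

section mat

variable {R : Type*} [CommRing R]

theorem Q0_eq (d : R) : Qi d (E3 d) 0 = !![d ^ 2 - 1, 0, -1; 0, d ^ 2 - 1, d; 0, 0, 0] := by
  refine Matrix.ext fun a b => ?_
  fin_cases a <;> fin_cases b <;> simp [Qi, E3] <;> ring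

theorem Q1_eq (d : R) : Qi d (E3 d) 1 = !![0, 0, 0; d, d ^ 2 - 1, 0; -1, 0, d ^ 2 - 1] := by
  refine Matrix.ext fun a b => ?_
  fin_cases a <;> fin_cases b <;> simp [Qi, E3] <;> ring

theorem scalar_of_comm_b [IsDomain R] {A A' d : R} (hA : A * A' = 1) (hd0 : d ≠ 0) 
    (hd1 : d ^ 2 - 1 ≠ 0) (hd2 : d ^ 2 - 2 ≠ 0) (X : Matrix (Fin 3) (Fin 3) R) 
    (h0 : X * Qi d (E3 d) 0 = Qi d (E3 d) 0 * X) (h1 : X * Qi d (E3 d) 1 = Qi d (E3 d) 1 * X) 
    (h2 : (ltr A A' (E3 d) (false, 2) * X * ltr A A' (E3 d) (true, 2)) * Qi d (E3 d) 0 = 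
      Qi d (E3 d) 0 * (ltr A A' (E3 d) (false, 2) * X * ltr A A' (E3 d) (true, 2))) : 
    X = X 0 0 • (1 : Matrix (Fin 3) (Fin 3) R) := by
  rw [Q0_eq] at h0 h2
  rw [Q1_eq] at h1
  have hA0 : A ≠ 0 := fun h => by rw [h, zero_mul] at hA; exact zero_ne_one hA
  have x20 : X 2 0 = 0 := by
    have := congrFun (congrFun h0 2) 0
    simp [Matrix.mul_apply, Fin.sum_univ_three] at this
    exact this.resolve_right hd1
  have x21 : X 2 1 = 0 := by
    have := congrFun (congrFun h0 2) 1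
    simp [Matrix.mul_apply, Fin.sum_univ_three] at this
    exact this.resolve_right hd1
  have x01 : X 0 1 = 0 := by
    have := congrFun (congrFun h1 0) 1
    simp [Matrix.mul_apply, Fin.sum_univ_three] at this
    exact this.resolve_right hd1
  have x02 : X 0 2 = 0 := by
    have := congrFun (congrFun h1 0) 2
    simp [Matrix.mul_apply, Fin.sum_univ_three] at this
    exact this.resolve_right hd1
  have x10 : X 1 0 = 0 := by
    have := congrFun (congrFun h2 2) 0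
    simp [Matrix.mul_apply, Fin.sum_univ_three, ltr, E3, x20] at this
    rcases this with h | h
    · rcases h with h | h
      · rcases h with h | h
        · exact absurd h hA0
        · exact h
      · exact absurd h hA0
    · exact absurd h hd1
  have e1 := congrFun (congrFun h0 0) 2
  have e2 := congrFun (congrFun h0 1) 2
  have e3 := congrFun (congrFun h1 1) 0
  simp [Matrix.mul_apply, Fin.sum_univ_three, x20, x01, x02, x10] at e1 e2 e3
  have x12 : X 1 2 = 0 := by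
    have : X 1 2 * (d ^ 2 - 2) = 0 := by
      linear_combination -e2 + e3 + d * e1
    exact (mul_eq_zero.1 this).resolve_right hd2
  have x11 : X 1 1 = X 0 0 := by
    rw [x12] at e3
    apply mul_left_cancel₀ hd0
    linear_combination e3
  have x22 : X 2 2 = X 0 0 := by linear_combination -e1
  refine Matrix.ext fun a b => ?_
  fin_cases a <;> fin_cases b <;> simp [x20, x21, x01, x02, x10, x12, x11, x22]

end mat

/-! ### the words -/

/-- `2 n` full twists on three strands -/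
def ya (i n : ℕ) : List (Bool × ℕ) := (List.replicate (2 * n) (fw i)).flatten

/-- a conjugate -/
def yb (n : ℕ) : List (Bool × ℕ) := [(true, 2)] ++ (ya 0 n ++ [(false, 2)])

theorem ya_lt {i : ℕ} (hi : i + 2 < 4) (n : ℕ) : ∀ x ∈ ya i n, x.2 + 1 < 4 := by
  intro x hx
  obtain ⟨l, hl, hx⟩ := List.mem_flatten.1 hx
  rw [(List.mem_replicate.1 hl).2] at hx
  simp only [fw, List.mem_cons, List.not_mem_nil, or_false] at hx
  rcases hx with rfl | rfl | rfl | rfl | rfl | rfl <;> simp only <;> omega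

theorem yb_lt (n : ℕ) : ∀ x ∈ yb n, x.2 + 1 < 4 := by
  intro x hx
  simp only [yb, List.mem_append, List.mem_cons, List.not_mem_nil, or_false] at hx
  rcases hx with rfl | hx | rfl
  · norm_num
  · exact ya_lt (by norm_num) n x hx
  · norm_num

theorem permL_fw {i : ℕ} (hi : i + 2 < 4) : permL (fw i) = 1 := by
  obtain rfl | rfl : i = 0 ∨ i = 1 := by omega
  · have h : IsPure ([(true, 0), (true, 1), (true, 0), (true, 1), (true, 0), (true, 1)] : List (Letter 4)) := by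
      unfold IsPure
      decide
    exact permL_of_pure h
  · have h : IsPure ([(true, 1), (true, 2), (true, 1), (true, 2), (true, 1), (true, 2)] : List (Letter 4)) := by
      unfold IsPure
      decide
    exact permL_of_pure h

theorem permL_ya {i : ℕ} (hi : i + 2 < 4) (n : ℕ) : permL (ya i n) = 1 := by
  unfold ya
  rw [permL_flatten, List.map_replicate, List.prod_replicate, permL_fw hi, one_pow]

theorem permL_yb (n : ℕ) : permL (yb n) = 1 := by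
  unfold yb
  rw [permL_append, permL_append, permL_ya (by norm_num)]
  simp [permL]

/-- the divisor -/
noncomputable def hh (n : ℕ) : ℤ[T;T⁻¹] := 
  (1 - (T (-1)) ^ 4) * ∑ j ∈ Finset.range (2 * n), ((T (-1)) ^ 12) ^ j

theorem one_sub_t_ne : (1 - (T (-1)) ^ 4 : ℤ[T;T⁻¹]) ≠ 0 := by
  intro h
  have h4 : (T (-4) : ℤ[T;T⁻¹]) = T 0 := by
    have h5 : (T (-1) : ℤ[T;T⁻¹]) ^ 4 = T (-4) := by rw [T_pow]; norm_num
    rw [T_zero, ← h5]
    linear_combination -h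
  have h5 := (Finsupp.single_left_inj (one_ne_zero (α := ℤ))).1 (by exact congrArg AddMonoidAlgebra.coeff h4)
  omega

theorem hh_ne {n : ℕ} (hn : 1 ≤ n) : hh n ≠ 0 := by
  apply mul_ne_zero one_sub_t_ne
  intro h
  have h3 := congrArg (LaurentPolynomial.eval₂ (RingHom.id ℤ) (1 : ℤˣ)) h
  rw [map_sum, map_zero] at h3
  simp only [map_pow, LaurentPolynomial.eval₂_T, one_zpow, Units.val_one, one_pow, 
    Finset.sum_const, Finset.card_range, nsmul_eq_mul, mul_one] at h3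
  have : (2 * n : ℕ) = 0 := by exact_mod_cast h3
  omega

theorem T_ne (k : ℤ) : (T k : ℤ[T;T⁻¹]) ≠ 0 := (isUnit_T k).ne_zero

/-- the coefficient -/
noncomputable def cc (n : ℕ) : ℤ[T;T⁻¹] := ((T 1) ^ 6) ^ (2 * n) * ((T (-1)) ^ 4 * (1 - (T (-1)) ^ 4)) * 
  ∑ j ∈ Finset.range (2 * n), ((T (-1)) ^ 12) ^ j

theorem cc_eq (n : ℕ) : cc n = (((T 1) ^ 6) ^ (2 * n) * (T (-1)) ^ 4) * hh n := by
  unfold cc hh
  ring

theorem cc_ne {n : ℕ} (hn : 1 ≤ n) : cc n ≠ 0 := by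
  rw [cc_eq]
  exact mul_ne_zero (mul_ne_zero (pow_ne_zero _ (pow_ne_zero _ (T_ne 1))) (pow_ne_zero _ (T_ne (-1)))) 
    (hh_ne hn)

section gen

variable {B : Type*} [Ring B] [Algebra ℤ[T;T⁻¹] B] {e : ℕ → B}

theorem wd_ya (h : IsTLr 4 dd e) {i : ℕ} (hi : i + 2 < 4) (n : ℕ) : 
    wd (T 1 : ℤ[T;T⁻¹]) (T (-1)) e (ya i n) = 
      ((T 1 : ℤ[T;T⁻¹]) ^ 6) ^ (2 * n) • (1 : B) - cc n • Qi dd e i := 
  wd_fwk h T_mul_inv rfl hi (2 * n)

theorem wd_yb (h : IsTLr 4 dd e) (n : ℕ) : 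
    wd (T 1 : ℤ[T;T⁻¹]) (T (-1)) e (yb n) = ((T 1 : ℤ[T;T⁻¹]) ^ 6) ^ (2 * n) • (1 : B) - 
      cc n • (ltr (T 1 : ℤ[T;T⁻¹]) (T (-1)) e (true, 2) * Qi dd e 0 * 
        ltr (T 1 : ℤ[T;T⁻¹]) (T (-1)) e (false, 2)) := by
  unfold yb
  rw [wd_append, wd_append, wd_ya h (by norm_num)]
  have h1 : ∀ x : Bool × ℕ, wd (T 1 : ℤ[T;T⁻¹]) (T (-1)) e [x] = ltr (T 1 : ℤ[T;T⁻¹]) (T (-1)) e x := by
    intro x; simp [wd]
  have h2 : ltr (T 1 : ℤ[T;T⁻¹]) (T (-1)) e (true, 2) * ltr (T 1 : ℤ[T;T⁻¹]) (T (-1)) e (false, 2) = 1 := 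
    ltr_inv h T_mul_inv rfl true 2 (by norm_num)
  rw [h1, h1, sub_mul, mul_sub, smul_mul_assoc, smul_mul_assoc, mul_smul_comm, mul_smul_comm, one_mul, 
    h2, mul_assoc]

theorem ya_Cg (h : IsTLr 4 dd e) {i : ℕ} (hi : i + 2 < 4) (n : ℕ) : 
    Cg (hh n) (wd (T 1 : ℤ[T;T⁻¹]) (T (-1)) e (ya i n)) := by
  refine ⟨((T 1 : ℤ[T;T⁻¹]) ^ 6) ^ (2 * n), 
    (-(((T 1) ^ 6) ^ (2 * n) * (T (-1)) ^ 4) : ℤ[T;T⁻¹]) • Qi dd e i, ?_⟩
  rw [wd_ya h hi, cc_eq, smul_smul, sub_eq_add_neg, ← neg_smul]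
  congr 2
  ring

theorem yb_Cg (h : IsTLr 4 dd e) (n : ℕ) : 
    Cg (hh n) (wd (T 1 : ℤ[T;T⁻¹]) (T (-1)) e (yb n)) := by
  refine ⟨((T 1 : ℤ[T;T⁻¹]) ^ 6) ^ (2 * n), 
    (-(((T 1) ^ 6) ^ (2 * n) * (T (-1)) ^ 4) : ℤ[T;T⁻¹]) • 
      (ltr (T 1 : ℤ[T;T⁻¹]) (T (-1)) e (true, 2) * Qi dd e 0 * 
        ltr (T 1 : ℤ[T;T⁻¹]) (T (-1)) e (false, 2)), ?_⟩
  rw [wd_yb h, cc_eq, smul_smul, sub_eq_add_neg, ← neg_smul]
  congr 2
  ring

end gen

theorem dd_ne : dd ≠ 0 := by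
  intro h
  have := congrArg ph h
  rw [ph_dd, map_zero] at this
  exact absurd this (by decide)

theorem dd1_ne : dd ^ 2 - 1 ≠ 0 := by
  intro h
  have := congrArg ph h
  rw [map_sub, map_pow, ph_dd, map_zero, map_one] at this
  exact absurd this (by decide)

theorem dd2_ne : dd ^ 2 - 2 ≠ 0 := by
  intro h
  have := congrArg ph h
  rw [map_sub, map_pow, ph_dd, map_zero, map_ofNat] at this
  exact absurd this (by decide)

/-- the words with full twists -/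
def IsTw (n : ℕ) (y : List (Bool × ℕ)) : Prop := y = ya 0 n ∨ y = ya 1 n ∨ y = yb n

theorem exists_comm_b {x : List (Bool × ℕ)} (hx : ∀ z ∈ x, z.2 + 1 < 4) (hdet : (MB x).det = 1) 
    (hne : MB x ≠ 1) {n : ℕ} (hn : 1 ≤ n) : ∃ y, IsTw n y ∧ MB (comW x y) ≠ 1 := by
  by_contra hcon
  push Not at hcon
  apply hne
  have key : ∀ Q : Matrix (Fin 3) (Fin 3) ℤ[T;T⁻¹], 
      MB x * (((T 1 : ℤ[T;T⁻¹]) ^ 6) ^ (2 * n) • (1 : Matrix (Fin 3) (Fin 3) ℤ[T;T⁻¹]) - cc n • Q) = 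
      (((T 1 : ℤ[T;T⁻¹]) ^ 6) ^ (2 * n) • (1 : Matrix (Fin 3) (Fin 3) ℤ[T;T⁻¹]) - cc n • Q) * MB x → 
      MB x * Q = Q * MB x := by
    intro Q h
    rw [mul_sub, sub_mul, mul_smul_comm, mul_smul_comm, smul_mul_assoc, smul_mul_assoc, mul_one,
      one_mul] at h
    have h4 := sub_right_injective h
    refine Matrix.ext fun a b => ?_
    have h6 := congrFun (congrFun h4 a) b
    rw [Matrix.smul_apply, Matrix.smul_apply, smul_eq_mul, smul_eq_mul] at h6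
    exact mul_left_cancel₀ (cc_ne hn) h6
  have h3 := isTLr_E3 dd
  have c0 := comm_of_comW hx (ya_lt (by norm_num) n) (hcon _ (Or.inl rfl))
  have c1 := comm_of_comW hx (ya_lt (by norm_num) n) (hcon _ (Or.inr (Or.inl rfl)))
  have c2 := comm_of_comW hx (yb_lt n) (hcon _ (Or.inr (Or.inr rfl)))
  have w0 : MB (ya 0 n) = _ := wd_ya h3 (by norm_num) n
  have w1 : MB (ya 1 n) = _ := wd_ya h3 (by norm_num) n
  have w2 : MB (yb n) = _ := wd_yb h3 n
  rw [w0] at c0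
  rw [w1] at c1
  rw [w2] at c2
  have q0 := key _ c0
  have q1 := key _ c1
  have q2 := key _ c2
  have i1 : ltr (T 1 : ℤ[T;T⁻¹]) (T (-1)) (E3 dd) (true, 2) * 
      ltr (T 1 : ℤ[T;T⁻¹]) (T (-1)) (E3 dd) (false, 2) = 1 := 
    ltr_inv h3 T_mul_inv rfl true 2 (by norm_num)
  have i2 : ltr (T 1 : ℤ[T;T⁻¹]) (T (-1)) (E3 dd) (false, 2) * 
      ltr (T 1 : ℤ[T;T⁻¹]) (T (-1)) (E3 dd) (true, 2) = 1 := 
    ltr_inv h3 T_mul_inv rfl false 2 (by norm_num)
  refine scalar_one hdet (scalar_of_comm_b T_mul_inv dd_ne dd1_ne dd2_ne (MB x) q0 q1 ?_)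
  set S := ltr (T 1 : ℤ[T;T⁻¹]) (T (-1)) (E3 dd) (true, 2)
  set S' := ltr (T 1 : ℤ[T;T⁻¹]) (T (-1)) (E3 dd) (false, 2)
  set Q := Qi dd (E3 dd) 0
  calc S' * MB x * S * Q = S' * (MB x * (S * Q * (S' * S))) := by rw [i2, mul_one]; noncomm_ring
    _ = S' * (MB x * (S * Q * S')) * S := by noncomm_ring
    _ = S' * ((S * Q * S') * MB x) * S := by rw [q2]
    _ = (S' * S) * Q * (S' * MB x * S) := by noncomm_ring
    _ = Q * (S' * MB x * S) := by rw [i2, one_mul]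

theorem good_step_b {h : ℤ[T;T⁻¹]} {x : List (Bool × ℕ)} (hx : Good h x) {n : ℕ} (hn : 1 ≤ n) : 
    ∃ y, Good (h * hh n) y := by
  obtain ⟨y, hy, hne⟩ := exists_comm_b hx.lt hx.det hx.ne hn
  have hlt : ∀ z ∈ y, z.2 + 1 < 4 := by
    rcases hy with rfl | rfl | rfl
    · exact ya_lt (by norm_num) n
    · exact ya_lt (by norm_num) n
    · exact yb_lt n
  have hp : permL y = 1 := by
    rcases hy with rfl | rfl | rfl
    · exact permL_ya (by norm_num) n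
    · exact permL_ya (by norm_num) n
    · exact permL_yb n
  have hc : Cg (hh n) (wd (T 1 : ℤ[T;T⁻¹]) (T (-1)) es y) := by
    rcases hy with rfl | rfl | rfl
    · exact ya_Cg isTLr_es (by norm_num) n
    · exact ya_Cg isTLr_es (by norm_num) n
    · exact yb_Cg isTLr_es n
  exact ⟨comW x y, comW_lt hx.lt hlt, permL_comW hx.perm hp, costS_comW hx.perm hp, 
    comm_C1 isTLr_es T_mul_inv rfl hx.lt hlt hx.c1.cg hc, det_comW hx.lt hlt, hne⟩

/-- both kinds of commutators together -/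
theorem good_both {x : List (Bool × ℕ)} {h : ℤ[T;T⁻¹]} (hx : Good h x) {n : ℕ} (hn : 1 ≤ n) (r : ℕ) : 
    ∃ y, Good (h * (gg n * hh n) ^ r) y := by
  induction r with
  | zero => exact ⟨x, by simpa using hx⟩
  | succ r ih =>
    obtain ⟨y, hy⟩ := ih
    obtain ⟨i, hi⟩ := good_step hy hn
    obtain ⟨z, hz⟩ := good_step_b hi hn
    exact ⟨z, by rw [pow_succ, ← mul_assoc, ← mul_assoc]; exact hz⟩

/-- the product is divisible by `1 - t^(2n)` -/
theorem dvd_both (n : ℕ) : (1 - T (-(8 * n)) : ℤ[T;T⁻¹]) ∣ gg n * hh n := by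
  have h1 : gg n * (1 + (T (-1)) ^ 4) = 1 - T (-(8 * n)) := by
    unfold gg
    have h2 := geom_sum_mul (-(T (-1) : ℤ[T;T⁻¹]) ^ 4) (2 * n)
    have h3 : (-(T (-1) : ℤ[T;T⁻¹]) ^ 4) ^ (2 * n) = T (-(8 * n)) := by
      rw [pow_mul, neg_sq, T_pow, T_pow, T_pow]
      congr 1
      push_cast
      ring
    rw [h3] at h2
    linear_combination -h2
  have h2 : ∀ k : ℕ, ∑ j ∈ Finset.range (2 * k), ((T (-1) : ℤ[T;T⁻¹]) ^ 12) ^ j = 
      (1 + (T (-1)) ^ 12) * ∑ j ∈ Finset.range k, ((T (-1) : ℤ[T;T⁻¹]) ^ 24) ^ j := by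
    intro k
    induction k with
    | zero => simp
    | succ k ih =>
      rw [show 2 * (k + 1) = 2 * k + 1 + 1 by ring, Finset.sum_range_succ, Finset.sum_range_succ, ih, 
        Finset.sum_range_succ]
      ring
  refine ⟨(1 - (T (-1)) ^ 4) * (1 - (T (-1)) ^ 4 + (T (-1)) ^ 8) * 
    ∑ j ∈ Finset.range n, ((T (-1) : ℤ[T;T⁻¹]) ^ 24) ^ j, ?_⟩
  rw [← h1]
  unfold hh
  rw [h2 n]
  ring

end Pool.Agent.J5.H37.UJ
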