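import Pool.Agent.J5.H37.UJ.Lists

/-!
# The three computations
-/

set_option autoImplicit false

namespace Pool.Agent.J5.H37.UJ

theorem chk2 : samep (runL 2 (2 :: (pw u2 4 ++ [0]))) (runL 2 (0 :: (pw u2 4 ++ [2]))) = true := by
  decide +kernel

theorem chk3 : samep (runL 3 (2 :: (pw u3 3 ++ [0]))) (runL 3 (0 :: (pw u3 3 ++ [2]))) = true := by
  decide +kernel

theorem chk5 : samep (runL 5 (2 :: (pw u5 5 ++ [0]))) (runL 5 (0 :: (pw u5 5 ++ [2]))) = true := by
  decide +kernel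

end Pool.Agent.J5.H37.UJ
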