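import Pool.Agent.J5.H37.UJ.TL4

/-!
# Coordinates of braid words
-/

set_option autoImplicit false

namespace Pool.Agent.J5.H37.UJ

open Pool.Agent.Y463.SK

section co

variable {K : Type*} [CommRing K]

theorem E_add (d : K) (i : ℕ) (x y : Fin 14 → K) : E d i (x + y) = E d i x + E d i y := by
  match i with
  | 0 => funext j; fin_cases j <;> simp [E] <;> ring
  | 1 => funext j; fin_cases j <;> simp [E] <;> ring
  | 2 => funext j; fin_cases j <;> simp [E] <;> ring
  | _ + 3 => simp [E]

theorem E_smul (d : K) (i : ℕ) (r : K) (x : Fin 14 → K) : E d i (r • x) = r • E d i x := by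
  match i with
  | 0 => funext j; fin_cases j <;> simp [E] <;> ring
  | 1 => funext j; fin_cases j <;> simp [E] <;> ring
  | 2 => funext j; fin_cases j <;> simp [E] <;> ring
  | _ + 3 => simp [E]

theorem E_map {K' : Type*} [CommRing K'] (φ : K →+* K') (d : K) (i : ℕ) (x : Fin 14 → K) :
    E (φ d) i (φ ∘ x) = φ ∘ E d i x := by
  match i with
  | 0 => funext j; fin_cases j <;> simp [E]
  | 1 => funext j; fin_cases j <;> simp [E]
  | 2 => funext j; fin_cases j <;> simp [E]
  | _ + 3 => funext j; simp [E]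

/-- the action of a letter -/
def La (A A' d : K) (x : Bool × ℕ) (y : Fin 14 → K) : Fin 14 → K :=
  if x.1 then A • y + A' • E d x.2 y else A' • y + A • E d x.2 y

/-- the coordinates of the unit -/
def one14 : Fin 14 → K := fun j => if j = 0 then 1 else 0

/-- the coordinates of a word -/
def co (A A' d : K) (w : List (Bool × ℕ)) : Fin 14 → K := w.foldr (La A A' d) one14

theorem La_map {K' : Type*} [CommRing K'] (φ : K →+* K') (A A' d : K) (x : Bool × ℕ)
    (y : Fin 14 → K) : La (φ A) (φ A') (φ d) x (φ ∘ y) = φ ∘ La A A' d x y := by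
  unfold La
  rw [E_map]
  split_ifs <;> (funext j; simp)

theorem co_map {K' : Type*} [CommRing K'] (φ : K →+* K') (A A' d : K) (w : List (Bool × ℕ)) :
    co (φ A) (φ A') (φ d) w = φ ∘ co A A' d w := by
  induction w with
  | nil => 
    funext j
    simp only [co, List.foldr_nil, one14, Function.comp_apply]
    split_ifs <;> simp
  | cons x w ih =>
    show La (φ A) (φ A') (φ d) x (co (φ A) (φ A') (φ d) w) = φ ∘ La A A' d x (co A A' d w)
    rw [ih, La_map]

end co

section words

variable {R B : Type*} [CommRing R] [Ring B] [Algebra R B] {A A' d : R} {e : ℕ → B}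

theorem lc_one : lc e (one14 : Fin 14 → R) = 1 := by
  unfold lc one14
  rw [Finset.sum_eq_single 0]
  · simp [bs]
  · intro b _ hb
    simp [hb]
  · simp

theorem ltr_lc (h : IsTLr 4 d e) (x : Bool × ℕ) (hx : x.2 + 1 < 4) (y : Fin 14 → R) :
    ltr A A' e x * lc e y = lc e (La A A' d x y) := by
  unfold ltr La
  split_ifs
  · rw [add_mul, smul_mul_assoc, one_mul, smul_mul_assoc, e_lc h _ (by omega), lc_add, lc_smul,
      lc_smul]
  · rw [add_mul, smul_mul_assoc, one_mul, smul_mul_assoc, e_lc h _ (by omega), lc_add, lc_smul,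
      lc_smul]

theorem wd_eq (h : IsTLr 4 d e) (w : List (Bool × ℕ)) (hw : ∀ x ∈ w, x.2 + 1 < 4) :
    wd A A' e w = lc e (co A A' d w) := by
  induction w with
  | nil => 
    have : co A A' d [] = one14 := rfl
    rw [this, lc_one]
    rfl
  | cons x w ih =>
    have h1 : wd A A' e (x :: w) = ltr A A' e x * wd A A' e w := by simp [wd]
    rw [h1, ih (fun y hy => hw y (List.mem_cons_of_mem _ hy)), ltr_lc h x (hw x List.mem_cons_self)]
    rfl

end words

/-! ### positive words, scaled -/

/-- fourteen coefficients -/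
structure V14 (α : Type*) where
  (c0 c1 c2 c3 c4 c5 c6 c7 c8 c9 c10 c11 c12 c13 : α)

/-- the operations used below -/
structure Ops (α : Type*) where
  (add : α → α → α)
  (sh : α → α)
  (mn : α → α)

variable {α : Type*}

/-- left multiplication of a scaled vector by `1 + v e_i` -/
def stp (o : Ops α) : ℕ → V14 α → V14 α
  | 0, x => ⟨x.c0, o.add (o.mn x.c1) (o.add x.c0 x.c4), x.c2, x.c3, x.c4,
      o.add (o.mn x.c5) (o.sh (o.add x.c3 (o.add x.c9 x.c10))),
      o.add (o.mn x.c6) (o.sh x.c2), x.c7, x.c8, x.c9, x.c10,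
      o.add (o.mn x.c11) (o.add x.c7 x.c13), o.add (o.mn x.c12) x.c8, x.c13⟩
  | 1, x => ⟨x.c0, x.c1, o.add (o.mn x.c2) (o.add x.c0 (o.add x.c6 x.c7)), x.c3,
      o.add (o.mn x.c4) (o.sh (o.add x.c1 x.c9)), x.c5, x.c6, x.c7,
      o.add (o.mn x.c8) (o.sh (o.add x.c3 x.c12)), x.c9, o.add (o.mn x.c10) x.c5, x.c11, x.c12,
      o.add (o.mn x.c13) (o.sh x.c11)⟩
  | 2, x => ⟨x.c0, x.c1, x.c2, o.add (o.mn x.c3) (o.add x.c0 x.c8), x.c4,
      o.add (o.mn x.c5) (o.sh (o.add x.c1 (o.add x.c10 x.c12))), x.c6,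
      o.add (o.mn x.c7) (o.sh x.c2), x.c8, o.add (o.mn x.c9) x.c4, x.c10,
      o.add (o.mn x.c11) (o.add x.c6 x.c13), x.c12, x.c13⟩
  | _, x => x

/-- the operations in a ring -/
def ringOps {K : Type*} [CommRing K] (t : K) : Ops K := ⟨fun x y => x + y, fun x => t * x, fun x => -(t * x)⟩

/-- a scaled vector -/
def sc {K : Type*} [CommRing K] (v : K) (x : V14 K) : Fin 14 → K :=
  ![x.c0, v * x.c1, v * x.c2, v * x.c3, x.c4, x.c5, x.c6, x.c7, x.c8, v * x.c9, v * x.c10,
    v * x.c11, v * x.c12, x.c13]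

theorem sc_stp {K : Type*} [CommRing K] {v d : K} (hv : v * d = -(1 + v * v)) (i : ℕ) (hi : i < 3) 
    (x : V14 K) : sc v x + v • E d i (sc v x) = sc v (stp (ringOps (v * v)) i x) := by
  obtain rfl | rfl | rfl : i = 0 ∨ i = 1 ∨ i = 2 := by omega
  · funext j
    fin_cases j <;> simp [sc, E, stp, ringOps]
    · linear_combination v * x.c1 * hv
    · linear_combination x.c5 * hv
    · linear_combination x.c6 * hv
    · linear_combination v * x.c11 * hv
    · linear_combination v * x.c12 * hv
  · funext j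
    fin_cases j <;> simp [sc, E, stp, ringOps]
    · linear_combination v * x.c2 * hv
    · linear_combination x.c4 * hv
    · linear_combination x.c8 * hv
    · linear_combination v * x.c10 * hv
    · linear_combination x.c13 * hv
  · funext j
    fin_cases j <;> simp [sc, E, stp, ringOps]
    · linear_combination v * x.c3 * hv
    · linear_combination x.c5 * hv
    · linear_combination x.c7 * hv
    · linear_combination v * x.c9 * hv
    · linear_combination v * x.c11 * hv

end Pool.Agent.J5.H37.UJ
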