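import Pool.Agent.J5.H37.UJ.Alg

/-!
# Words which are congruent to one do not change the polynomial modulo `h`
-/

set_option autoImplicit false

namespace Pool.Agent.J5.H37.UJ

open LaurentPolynomial Pool.Agent.H891R2.Jones Pool.Agent.W639.RB Pool.Agent.Y463.SK

variable {m : ℕ}

theorem Fn_bb (O : Outer m) (N : {N : ℕ // 3 ≤ N}) (v w : List (Bool × ℕ)) : 
    Fn O N v (bb m w) = Zg (Ar N.1) N.1 O (rho (Ar N.1) m N.1 (w ++ v) (fun x y => ind (x = y))) := by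
  unfold Fn
  rw [bb_apply, rho_append]
  rfl

/-- the sign -/
noncomputable def sgn (c : ℤ) : ℤ[T;T⁻¹] := if Even c then 1 else -1

theorem ev_sgn (N : {N : ℕ // 3 ≤ N}) (c : ℤ) : 
    ev N.1 N.2 (sgn c) = if Even c then (1 : ℂ) else -1 := by
  unfold sgn
  split_ifs <;> simp

theorem sgn_sq (c : ℤ) : (if Even c then (1 : ℂ) else -1) * (if Even c then (1 : ℂ) else -1) = 1 := by
  split_ifs <;> norm_num

/-- the value of the polynomial -/
theorem ff_value (hm : 0 < m) (O : Outer m) (v w : List (Bool × ℕ)) (hv : ∀ x ∈ v, x.2 + 1 < m) 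
    (hw : ∀ x ∈ w, x.2 + 1 < m) (N : {N : ℕ // 3 ≤ N}) : 
    (N.1 : ℂ) * ev N.1 N.2 (ff O (w ++ v)) = 
      ev N.1 N.2 (sgn (owr O + costS (w ++ v) (pat O.up)) * 
        T (-3 * (owr O + costS (w ++ v) (pat O.up)))) * Fn O N v (bb m w) := by
  have h1 : ∀ x ∈ w ++ v, x.2 + 1 < m := by
    intro x hx
    rcases List.mem_append.1 hx with h | h
    · exact hw x h
    · exact hv x h
  rw [ev_ff hm O _ h1 N, Fn_bb, map_mul, ev_sgn, ev_T]

theorem fn_word (hm : 0 < m) (O : Outer m) (v w : List (Bool × ℕ)) (hv : ∀ x ∈ v, x.2 + 1 < m) 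
    (hw : ∀ x ∈ w, x.2 + 1 < m) : ∃ g : ℤ[T;T⁻¹], ∀ N : {N : ℕ // 3 ≤ N}, 
      (N.1 : ℂ) * ev N.1 N.2 g = Fn O N v (bb m w) := by
  set c := owr O + costS (w ++ v) (pat O.up) with hc
  refine ⟨sgn c * T (3 * c) * ff O (w ++ v), fun N => ?_⟩
  have hA := Ar_ne N.1 N.2
  have h1 := ff_value hm O v w hv hw N
  rw [← hc] at h1
  have h2 : (N.1 : ℂ) * ev N.1 N.2 (sgn c * T (3 * c) * ff O (w ++ v)) = 
      ev N.1 N.2 (sgn c * T (3 * c)) * ((N.1 : ℂ) * ev N.1 N.2 (ff O (w ++ v))) := by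
    rw [map_mul]; ring
  rw [h2, h1, ← mul_assoc, ← map_mul]
  have h3 : (sgn c * T (3 * c)) * (sgn c * T (-3 * c)) = 1 := by
    have e1 : sgn c * sgn c = 1 := by unfold sgn; split_ifs <;> simp
    have e2 : (T (3 * c) : ℤ[T;T⁻¹]) * T (-3 * c) = 1 := by 
      rw [← T_add, show 3 * c + -3 * c = 0 by ring, T_zero]
    calc (sgn c * T (3 * c)) * (sgn c * T (-3 * c)) = (sgn c * sgn c) * (T (3 * c) * T (-3 * c)) := by 
          ring
      _ = 1 := by rw [e1, e2, one_mul]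
  rw [h3, map_one, one_mul]

theorem EB_eq (i : ℕ) : EB m i = (T 1 : ℤ[T;T⁻¹]) • bb m [(true, i)] - (T 2 : ℤ[T;T⁻¹]) • (1 : BB m) := by
  have h1 : bb m [(true, i)] = (T 1 : ℤ[T;T⁻¹]) • (1 : BB m) + (T (-1) : ℤ[T;T⁻¹]) • EB m i := by
    simp [bb, wd, ltr]
  rw [h1, smul_add, smul_smul, smul_smul, ← T_add, ← T_add]
  norm_num

/-- every element of the algebra has a Laurent polynomial as its value -/
theorem fn_exists (hm : 0 < m) (O : Outer m) (v : List (Bool × ℕ)) (hv : ∀ x ∈ v, x.2 + 1 < m) 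
    (z : BB m) (hz : z ∈ Algebra.adjoin ℤ[T;T⁻¹] (Set.range (EB m))) : 
    ∃ g : ℤ[T;T⁻¹], ∀ N : {N : ℕ // 3 ≤ N}, (N.1 : ℂ) * ev N.1 N.2 g = Fn O N v z := by
  set Q : BB m → Prop := fun y => ∀ w : List (Bool × ℕ), (∀ x ∈ w, x.2 + 1 < m) → 
    ∃ g : ℤ[T;T⁻¹], ∀ N : {N : ℕ // 3 ≤ N}, (N.1 : ℂ) * ev N.1 N.2 g = Fn O N v (y * bb m w) with hQ
  have hQ1 : Q 1 := by
    intro w hw
    simp only [one_mul]
    exact fn_word hm O v w hv hw
  have hsmul : ∀ (r : ℤ[T;T⁻¹]) (y : BB m), (∃ g : ℤ[T;T⁻¹], ∀ N : {N : ℕ // 3 ≤ N}, 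
      (N.1 : ℂ) * ev N.1 N.2 g = Fn O N v y) → (∃ g : ℤ[T;T⁻¹], ∀ N : {N : ℕ // 3 ≤ N}, 
      (N.1 : ℂ) * ev N.1 N.2 g = Fn O N v (r • y)) := by
    rintro r y ⟨g, hg⟩
    refine ⟨r * g, fun N => ?_⟩
    rw [map_mul, Fn_smul, ← hg N]
    ring
  have hadd : ∀ (y y' : BB m), (∃ g : ℤ[T;T⁻¹], ∀ N : {N : ℕ // 3 ≤ N}, 
      (N.1 : ℂ) * ev N.1 N.2 g = Fn O N v y) → (∃ g : ℤ[T;T⁻¹], ∀ N : {N : ℕ // 3 ≤ N}, 
      (N.1 : ℂ) * ev N.1 N.2 g = Fn O N v y') → (∃ g : ℤ[T;T⁻¹], ∀ N : {N : ℕ // 3 ≤ N}, 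
      (N.1 : ℂ) * ev N.1 N.2 g = Fn O N v (y + y')) := by
    rintro y y' ⟨g, hg⟩ ⟨g', hg'⟩
    refine ⟨g + g', fun N => ?_⟩
    rw [map_add, Fn_add, ← hg N, ← hg' N]
    ring
  have hP : ∀ y, Q y → Q (y * z) := by
    induction hz using Algebra.adjoin_induction with
    | mem b hb =>
      obtain ⟨i, rfl⟩ := hb
      intro y hy w hw
      rcases Nat.lt_or_ge (i + 1) m with hi | hi
      · have h1 : y * EB m i * bb m w = (T 1 : ℤ[T;T⁻¹]) • (y * bb m ((true, i) :: w)) + 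
            (-T 2 : ℤ[T;T⁻¹]) • (y * bb m w) := by
          have h2 : bb m ((true, i) :: w) = bb m [(true, i)] * bb m w := by 
            rw [← bb_append]; rfl
          rw [h2, EB_eq]
          simp only [mul_sub, sub_mul, mul_smul_comm, smul_mul_assoc, mul_one, mul_assoc, neg_smul]
          abel
        rw [h1]
        apply hadd
        · apply hsmul
          apply hy
          intro x hx
          rcases List.mem_cons.1 hx with rfl | hx
          · exact hi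
          · exact hw x hx
        · exact hsmul _ _ (hy w hw)
      · rw [EB_zero m i hi, mul_zero, zero_mul]
        exact ⟨0, fun N => by rw [map_zero, Fn_zero, mul_zero]⟩
    | algebraMap r => 
      intro y hy w hw
      rw [← Algebra.commutes, ← Algebra.smul_def, smul_mul_assoc]
      exact hsmul _ _ (hy w hw)
    | add b c _ _ hb hc =>
      intro y hy w hw
      rw [mul_add, add_mul]
      exact hadd _ _ (hb y hy w hw) (hc y hy w hw)
    | mul b c _ _ hb hc =>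
      intro y hy w hw
      rw [← mul_assoc]
      exact hc _ (hb y hy) w hw
  have h1 := hP 1 hQ1 [] (by simp)
  have h2 : bb m [] = 1 := rfl
  rw [one_mul, h2, mul_one] at h1
  exact h1

/-- the transfer of congruences -/
theorem transfer (hm : 0 < m) (O : Outer m) (c v : List (Bool × ℕ)) (hc : ∀ x ∈ c, x.2 + 1 < m) 
    (hv : ∀ x ∈ v, x.2 + 1 < m) (hp : permL c = 1) (hcost : costS c (pat O.up) = 0) 
    (h : ℤ[T;T⁻¹]) (z : BB m) 
    (hz : z ∈ Algebra.adjoin ℤ[T;T⁻¹] (Set.range (EB m))) (hcz : bb m c = 1 + h • z) : 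
    h ∣ ff O (c ++ v) - ff O v := by
  obtain ⟨g, hg⟩ := fn_exists hm O v hv z hz
  set κ : ℤ[T;T⁻¹] := sgn (owr O + costS v (pat O.up)) * T (-3 * (owr O + costS v (pat O.up))) with hκ
  refine ⟨κ * g, ?_⟩
  rw [← sub_eq_zero]
  apply eq_zero_of_ev
  intro N hN
  have hNC : (N : ℂ) ≠ 0 := by
    rw [Nat.cast_ne_zero]; omega
  have h1 := ff_value hm O v c hv hc ⟨N, hN⟩
  have h2 := ff_value hm O v [] hv (by simp) ⟨N, hN⟩
  have hU : pat O.up ∘ ⇑(1 : Equiv.Perm ℕ) = pat O.up := rfl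
  rw [costS_append, hcost, zero_add, hp, hU, ← hκ] at h1
  rw [List.nil_append, ← hκ] at h2
  have h3 : bb m [] = 1 := rfl
  rw [hcz, Fn_add, Fn_smul, ← hg ⟨N, hN⟩] at h1
  rw [h3] at h2
  simp only at h1 h2
  clear_value κ
  have h4 : (N : ℂ) * ev N hN (ff O (c ++ v) - ff O v - h * (κ * g)) = 0 := by
    rw [map_sub, map_sub, mul_sub, mul_sub, h1, h2]
    simp only [map_mul]
    ring
  exact (mul_eq_zero.1 h4).resolve_left hNC

/-! ### commutators -/

theorem permL_comW {x y : List (Bool × ℕ)} (hx : permL x = 1) (hy : permL y = 1) : 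
    permL (comW x y) = 1 := by
  have h1 : permL (invL x) = 1 := by
    have := permL_inv x
    rwa [hx, one_mul] at this
  have h2 : permL (invL y) = 1 := by
    have := permL_inv y
    rwa [hy, one_mul] at this
  unfold comW
  rw [permL_append, permL_append, permL_append, hx, hy, h1, h2]
  rfl

theorem costS_comW {x y : List (Bool × ℕ)} (hx : permL x = 1) (hy : permL y = 1) (U : ℕ → ℤ) : 
    costS (comW x y) U = 0 := by
  have h1 : permL (invL x) = 1 := by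
    have := permL_inv x
    rwa [hx, one_mul] at this
  have h3 := costS_inv x U
  have h4 := costS_inv y U
  have hU : U ∘ ⇑(1 : Equiv.Perm ℕ) = U := rfl
  rw [hx, hU] at h3
  rw [hy, hU] at h4
  unfold comW
  rw [costS_append, costS_append, costS_append, hx, hy, h1, hU, hU, hU, h3, h4]
  ring

end Pool.Agent.J5.H37.UJ
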