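import Pool.Agent.J5.H37.UJ.Trace

/-!
# The Gram matrix
-/

set_option autoImplicit false

namespace Pool.Agent.J5.H37.UJ

open Finset LaurentPolynomial Pool.Agent.H891R2.Jones Pool.Agent.W639.RB Pool.Agent.Y463.SK

/-- left multiplication of a diagram by a generator: the resulting diagram and the number of closed
curves -/
def nx : ℕ → Fin 14 → Fin 14 × ℕ
  | 0 => ![(1,0), (1,1), (6,0), (5,0), (1,0), (5,1), (6,1), (11,0), (12,0), (5,0), (5,0), (11,1),
      (12,1), (11,0)]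
  | 1 => ![(2,0), (4,0), (2,1), (8,0), (4,1), (10,0), (2,0), (2,0), (8,1), (4,0), (10,1), (13,0),
      (8,0), (13,1)]
  | 2 => ![(3,0), (5,0), (7,0), (3,1), (9,0), (5,1), (11,0), (7,1), (3,0), (9,1), (5,0), (11,1),
      (5,0), (11,0)]
  | _ => fun k => (k, 0)

/-- the fourteen words -/
def wj : Fin 14 → List ℕ := ![[], [0], [1], [2], [1, 0], [2, 0], [0, 1], [2, 1], [1, 2], [2, 1, 0],
  [1, 2, 0], [2, 0, 1], [0, 1, 2], [1, 2, 0, 1]]

/-- the product of a word and a diagram -/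
def pr (w : List ℕ) (k : Fin 14) : Fin 14 × ℕ := 
  w.foldr (fun i s => ((nx i s.1).1, (nx i s.1).2 + s.2)) (k, 0)

/-- the number of curves of the closure of a product -/
def Lg (j k : Fin 14) : ℕ := (pr (wj j) k).2 + CL (pr (wj j) k).1

/-- the inverse of the Gram matrix modulo `101` for the loop value `21` -/
def Iv : Matrix (Fin 14) (Fin 14) (ZMod 101) := 
![![43, 89, 55, 89, 7, 10, 7, 7, 7, 67, 38, 38, 67, 3],
  ![89, 50, 17, 10, 55, 93, 55, 4, 4, 7, 10, 10, 7, 38],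
  ![55, 17, 67, 17, 93, 46, 93, 93, 93, 10, 17, 17, 10, 55],
  ![89, 10, 17, 50, 4, 93, 4, 55, 55, 7, 10, 10, 7, 38],
  ![7, 55, 93, 4, 10, 17, 50, 10, 10, 38, 4, 55, 89, 7],
  ![10, 93, 46, 93, 17, 67, 17, 17, 17, 55, 93, 93, 55, 10],
  ![7, 55, 93, 4, 50, 17, 10, 10, 10, 89, 55, 4, 38, 7],
  ![7, 4, 93, 55, 10, 17, 10, 10, 50, 38, 55, 4, 89, 7],
  ![7, 4, 93, 55, 10, 17, 10, 50, 10, 89, 4, 55, 38, 7],
  ![67, 7, 10, 7, 38, 55, 89, 38, 89, 3, 7, 7, 43, 67],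
  ![38, 10, 17, 10, 4, 93, 55, 55, 4, 7, 10, 50, 7, 89],
  ![38, 10, 17, 10, 55, 93, 4, 4, 55, 7, 50, 10, 7, 89],
  ![67, 7, 10, 7, 89, 55, 38, 89, 38, 43, 7, 7, 3, 67],
  ![3, 38, 55, 38, 7, 10, 7, 7, 7, 67, 89, 89, 67, 43]]

theorem gram_inv : ∀ i k : Fin 14, ∑ j, ((21 : ZMod 101) ^ Lg i j) * Iv j k = if i = k then 1 else 0 := by
  decide +kernel

section

variable {R B : Type*} [CommRing R] [Ring B] [Algebra R B] {d : R} {e : ℕ → B}

theorem e_bs (h : IsTLr 4 d e) (i : ℕ) (hi : i < 3) (k : Fin 14) :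
    e i * bs e k = d ^ (nx i k).2 • bs e (nx i k).1 := by
  have s0 := h.sq 0 (by omega)
  have s1 := h.sq 1 (by omega)
  have s2 := h.sq 2 (by omega)
  have u0 := h.up 0 (by omega)
  have u1 := h.up 1 (by omega)
  have d0 := h.down 0 (by omega)
  have d1 := h.down 1 (by omega)
  have f := h.far 0 2 (by omega) (by omega)
  simp only [zero_add, Nat.reduceAdd] at u0 u1 d0 d1
  have s0' : ∀ y, e 0 * (e 0 * y) = d • (e 0 * y) := fun y => by 
    rw [← mul_assoc, s0, smul_mul_assoc]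
  have s1' : ∀ y, e 1 * (e 1 * y) = d • (e 1 * y) := fun y => by 
    rw [← mul_assoc, s1, smul_mul_assoc]
  have s2' : ∀ y, e 2 * (e 2 * y) = d • (e 2 * y) := fun y => by 
    rw [← mul_assoc, s2, smul_mul_assoc]
  have u0' : ∀ y, e 0 * (e 1 * (e 0 * y)) = e 0 * y := fun y => by
    rw [← mul_assoc, ← mul_assoc, u0]
  have u1' : ∀ y, e 1 * (e 2 * (e 1 * y)) = e 1 * y := fun y => by
    rw [← mul_assoc, ← mul_assoc, u1]
  have d0' : ∀ y, e 1 * (e 0 * (e 1 * y)) = e 1 * y := fun y => by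
    rw [← mul_assoc, ← mul_assoc, d0]
  have d1' : ∀ y, e 2 * (e 1 * (e 2 * y)) = e 2 * y := fun y => by
    rw [← mul_assoc, ← mul_assoc, d1]
  have f' : ∀ y, e 0 * (e 2 * y) = e 2 * (e 0 * y) := fun y => by
    rw [← mul_assoc, f, mul_assoc]
  rw [mul_assoc] at u0 u1 d0 d1
  have w0 : e 0 * (e 1 * (e 2 * e 0)) = e 2 * e 0 := by
    rw [← f, u0']
  have w0' : ∀ y, e 0 * (e 1 * (e 2 * (e 0 * y))) = e 2 * (e 0 * y) := fun y => by
    rw [← f', u0', f']
  have w2 : e 2 * (e 0 * (e 1 * e 2)) = e 2 * e 0 := by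
    rw [← f', d1, f]
  obtain rfl | rfl | rfl : i = 0 ∨ i = 1 ∨ i = 2 := by omega
  · fin_cases k <;> simp [nx, bs, s0, s0', u0, w0, w0', f, f']
  · fin_cases k <;> simp [nx, bs, s1, s1', d0, d0', u1, u1']
  · fin_cases k <;> simp [nx, bs, s2, s2', d1, d1', w2]

theorem bs_eq (j : Fin 14) : bs e j = ((wj j).map e).prod := by
  fin_cases j <;> simp [bs, wj]

theorem prod_bs (h : IsTLr 4 d e) (w : List ℕ) (hw : ∀ i ∈ w, i < 3) (k : Fin 14) : 
    (w.map e).prod * bs e k = d ^ (pr w k).2 • bs e (pr w k).1 := by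
  induction w with
  | nil => simp [pr]
  | cons i w ih =>
    rw [List.map_cons, List.prod_cons, mul_assoc, ih (fun j hj => hw j (List.mem_cons_of_mem _ hj)), 
      mul_smul_comm, e_bs h i (hw i List.mem_cons_self), smul_smul, ← pow_add, add_comm]
    rfl

theorem wj_lt (j : Fin 14) : ∀ i ∈ wj j, i < 3 := by
  fin_cases j <;> simp [wj]

end

theorem ev_dd (N : {N : ℕ // 3 ≤ N}) : ev N.1 N.2 dd = (N.1 : ℂ) := by
  unfold dd
  rw [map_sub, map_neg, map_pow, map_pow, ev_T1, ev_Tm1, ← Ar_d N.1 N.2]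

theorem trN_smul (N : {N : ℕ // 3 ≤ N}) (r : ℤ[T;T⁻¹]) (b : BB 4) : 
    trN N (r • b) = ev N.1 N.2 r * trN N b := Fn_smul _ _ _ _ _

theorem trN_add (N : {N : ℕ // 3 ≤ N}) (b b' : BB 4) : trN N (b + b') = trN N b + trN N b' := 
  Fn_add _ _ _ _ _

theorem trN_zero (N : {N : ℕ // 3 ≤ N}) : trN N 0 = 0 := Fn_zero _ _ _

theorem trN_sum (N : {N : ℕ // 3 ≤ N}) {ι : Type*} (s : Finset ι) (b : ι → BB 4) : 
    trN N (∑ i ∈ s, b i) = ∑ i ∈ s, trN N (b i) := by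
  classical
  induction s using Finset.induction_on with
  | empty => simp [trN_zero]
  | insert a s ha ih => rw [Finset.sum_insert ha, Finset.sum_insert ha, trN_add, ih]

theorem tr_bs2 (N : {N : ℕ // 3 ≤ N}) (j k : Fin 14) : 
    trN N (bs (EB 4) j * bs (EB 4) k) = (N.1 : ℂ) ^ Lg j k := by
  have h1 := isTLr_EB 4
  rw [bs_eq j, prod_bs h1 (wj j) (wj_lt j) k, trN_smul, tr_bs, map_pow]
  have h2 : ev N.1 N.2 (-(T 1) ^ 2 - (T (-1)) ^ 2) = (N.1 : ℂ) := ev_dd N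
  rw [h2, ← pow_add]
  rfl

/-- the form is nondegenerate -/
theorem nondeg (D : Fin 14 → ℤ[T;T⁻¹]) 
    (h : ∀ (k : Fin 14) (N : {N : ℕ // 3 ≤ N}), trN N (lc (EB 4) D * bs (EB 4) k) = 0) : D = 0 := by
  set G : Matrix (Fin 14) (Fin 14) ℤ[T;T⁻¹] := Matrix.of fun j k => dd ^ Lg j k with hG
  have h1 : Matrix.vecMul D G = 0 := by
    funext k
    apply eq_zero_of_ev
    intro N hN
    have h2 := h k ⟨N, hN⟩
    unfold lc at h2
    rw [Finset.sum_mul, trN_sum] at h2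
    rw [Matrix.vecMul, dotProduct, map_sum, ← h2]
    refine Finset.sum_congr rfl fun j _ => ?_
    rw [smul_mul_assoc, trN_smul, tr_bs2, map_mul, hG, Matrix.of_apply, map_pow, ev_dd ⟨N, hN⟩]
  have h3 : G.det ≠ 0 := by
    intro h4
    have h5 : (ph.mapMatrix G).det = 0 := by
      rw [← RingHom.map_det, h4, map_zero]
    have h6 : ph.mapMatrix G * Iv = 1 := by
      refine Matrix.ext fun i k => ?_
      have h9 := gram_inv i k
      have h10 : (ph.mapMatrix G * Iv) i k = ∑ j, ((21 : ZMod 101) ^ Lg i j) * Iv j k := by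
        rw [Matrix.mul_apply]
        refine Finset.sum_congr rfl fun j _ => ?_
        have h11 : ph.mapMatrix G i j = (21 : ZMod 101) ^ Lg i j := by
          rw [RingHom.mapMatrix_apply, Matrix.map_apply, hG, Matrix.of_apply, map_pow, ph_dd]
          norm_num
        rw [h11]
      rw [h10, h9, Matrix.one_apply]
    have h7 := congrArg Matrix.det h6
    rw [Matrix.det_mul, h5, zero_mul, Matrix.det_one] at h7
    exact absurd h7 (by decide)
  exact Matrix.eq_zero_of_vecMul_eq_zero h3 h1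

end Pool.Agent.J5.H37.UJ
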