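import Pool.Agent.J5.H37.UJ.Words

/-!
# Closures
-/

set_option autoImplicit false

namespace Pool.Agent.J5.H37.UJ

open Finset LaurentPolynomial Pool.Agent.H891R2.Jones Pool.Agent.W639.RB Pool.Agent.Y463.SK

theorem cost_expo (w : List (Bool × ℕ)) (hw : ∀ x ∈ w, x.2 + 1 < 4) : 
    costS w (pat (braidClosure 4).up) = expo w := by
  have h1 := (draw_up w (braidClosure 4) hw (fun _ => rfl)).2
  have h2 := (draw_writhe w (braidClosure 4) hw).1
  rw [h1] at h2
  exact (add_left_cancel h2).symm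

theorem owr_closure : owr (braidClosure 4) = 0 := rfl

theorem ff_word (w : List (Bool × ℕ)) (hw : ∀ x ∈ w, x.2 + 1 < 4) (N : {N : ℕ // 3 ≤ N}) : 
    (N.1 : ℂ) * ev N.1 N.2 (ff (braidClosure 4) w) = 
      ev N.1 N.2 (sgn (expo w) * T (-3 * expo w)) * trN N (bb 4 w) := by
  have h := ff_value (by norm_num) (braidClosure 4) [] w (by simp) hw N
  rw [List.append_nil, owr_closure, zero_add, cost_expo w hw] at h
  exact h

theorem tr_word (N : {N : ℕ // 3 ≤ N}) (w : List (Bool × ℕ)) (hw : ∀ x ∈ w, x.2 + 1 < 4) : 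
    trN N (bb 4 w) = ∑ k, co (Ar N.1) (Ar N.1)⁻¹ (N.1 : ℂ) w k * (N.1 : ℂ) ^ CL k := by
  rw [bb_lc w hw, lc, trN_sum]
  refine Finset.sum_congr rfl fun k _ => ?_
  rw [trN_smul, ev_co, tr_bs]

/-- the variable with sign -/
def al {K : Type*} [Field K] (a : K) (s : Bool) : K := if s then a else a⁻¹

theorem tr3 {K : Type*} [Field K] {a d : K} (ha : a ≠ 0) (hd : d = -a ^ 2 - a⁻¹ ^ 2) : 
    ∀ o ∈ ords, ∀ s1 s2 s3 : Bool, ∑ k, co a a⁻¹ d [(s1, o.1), (s2, o.2.1), (s3, o.2.2)] k * d ^ CL k = 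
      - d * (al a s1 * al a s2 * al a s3) ^ 3 := by
  intro o ho s1 s2 s3
  simp only [ords, List.mem_cons, List.not_mem_nil, or_false] at ho
  rcases ho with rfl | rfl | rfl | rfl <;> cases s1 <;> cases s2 <;> cases s3
  all_goals
    simp only [co, List.foldr_cons, List.foldr_nil, one14_eq, La, if_true, E, Matrix.smul_cons, 
      Matrix.cons_add_cons, Matrix.cons_val, Matrix.smul_empty, Matrix.empty_add_empty, 
      Bool.false_eq_true, if_false, smul_eq_mul, mul_zero, mul_one, add_zero, zero_add, al, CL,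
      Fin.sum_univ_succ, Fin.sum_univ_zero, Matrix.cons_val_zero, Matrix.cons_val_succ, 
      zero_mul]
    rw [hd]
    field_simp
    ring

end Pool.Agent.J5.H37.UJ
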