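import Pool.Agent.J5.H37.UJ.Co

/-!
# The congruences modulo 2, 3 and 5, checked with lists of coefficients
-/

set_option autoImplicit false

namespace Pool.Agent.J5.H37.UJ

open Pool.Agent.Y463.SK

/-- addition of lists modulo `p` -/
def ladd (p : ℕ) : List ℕ → List ℕ → List ℕ
  | [], y => y
  | a :: x, [] => a :: x
  | a :: x, b :: y => (a + b) % p :: ladd p x y

def lsh : List ℕ → List ℕ
  | [] => []
  | a :: x => 0 :: a :: x

def lneg (p : ℕ) : List ℕ → List ℕ
  | [] => []
  | a :: x => ((p - 1) * a) % p :: lneg p x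

/-- the operations on lists of coefficients modulo `p` -/
def listOps (p : ℕ) : Ops (List ℕ) := ⟨ladd p, lsh, fun x => lsh (lneg p x)⟩

def runL (p : ℕ) (w : List ℕ) : V14 (List ℕ) :=
  w.foldr (stp (listOps p)) ⟨[1], [], [], [], [], [], [], [], [], [], [], [], [], []⟩

def eqz : List ℕ → List ℕ → Bool
  | [], y => y.all (fun b => b == 0)
  | a :: x, [] => a == 0 && x.all (fun b => b == 0)
  | a :: x, b :: y => a == b && eqz x y

def samep (x y : V14 (List ℕ)) : Bool :=
  eqz x.c0 y.c0 && (eqz x.c1 y.c1 && (eqz x.c2 y.c2 && (eqz x.c3 y.c3 && (eqz x.c4 y.c4 &&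
  (eqz x.c5 y.c5 && (eqz x.c6 y.c6 && (eqz x.c7 y.c7 && (eqz x.c8 y.c8 && (eqz x.c9 y.c9 &&
  (eqz x.c10 y.c10 && (eqz x.c11 y.c11 && (eqz x.c12 y.c12 && eqz x.c13 y.c13))))))))))))

section ev

variable {K : Type*} [CommRing K]

/-- the value of a list of coefficients -/
def evl (t : K) : List ℕ → K
  | [] => 0
  | a :: x => (a : K) + t * evl t x

theorem modcast {p : ℕ} (hp : (p : K) = 0) (a : ℕ) : ((a % p : ℕ) : K) = (a : K) := by
  have h := Nat.mod_add_div a p
  have h1 : ((a % p + p * (a / p) : ℕ) : K) = (a : K) := by rw [h]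
  push_cast at h1
  rw [hp, zero_mul, add_zero] at h1
  exact h1

theorem evl_ladd {p : ℕ} (hp : (p : K) = 0) (t : K) : ∀ x y : List ℕ,
    evl t (ladd p x y) = evl t x + evl t y
  | [], y => by simp [ladd, evl]
  | a :: x, [] => by simp [ladd, evl]
  | a :: x, b :: y => by
    rw [ladd, evl, evl, evl, evl_ladd hp t x y, modcast hp]
    push_cast
    ring

theorem evl_lsh (t : K) : ∀ x : List ℕ, evl t (lsh x) = t * evl t x
  | [] => by simp [lsh, evl]
  | a :: x => by simp [lsh, evl]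

theorem evl_lneg {p : ℕ} (hp1 : 1 ≤ p) (hp : (p : K) = 0) (t : K) : ∀ x : List ℕ, 
    evl t (lneg p x) = - evl t x
  | [] => by simp [lneg, evl]
  | a :: x => by
    rw [lneg, evl, evl, evl_lneg hp1 hp t x, modcast hp]
    push_cast [Nat.cast_sub hp1]
    rw [hp]
    ring

theorem evl_zero (t : K) : ∀ x : List ℕ, x.all (fun b => b == 0) = true → evl t x = 0
  | [], _ => rfl
  | a :: x, h => by
    simp only [List.all_cons, Bool.and_eq_true, beq_iff_eq] at h
    rw [evl, h.1, evl_zero t x h.2]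
    simp

theorem evl_eqz (t : K) : ∀ x y : List ℕ, eqz x y = true → evl t x = evl t y
  | [], y, h => by
    rw [eqz] at h
    rw [evl_zero t y h]; rfl
  | a :: x, [], h => by
    rw [eqz, Bool.and_eq_true, beq_iff_eq] at h
    show (a : K) + t * evl t x = 0
    rw [h.1, evl_zero t x h.2]
    simp
  | a :: x, b :: y, h => by
    rw [eqz, Bool.and_eq_true, beq_iff_eq] at h
    rw [evl, evl, h.1, evl_eqz t x y h.2]

/-- apply a function to all coefficients -/
def V14.map {α β : Type*} (f : α → β) (x : V14 α) : V14 β :=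
  ⟨f x.c0, f x.c1, f x.c2, f x.c3, f x.c4, f x.c5, f x.c6, f x.c7, f x.c8, f x.c9, f x.c10, f x.c11,
    f x.c12, f x.c13⟩

theorem stp_map {α β : Type*} (f : α → β) (o : Ops α) (o' : Ops β) 
    (h1 : ∀ a b, f (o.add a b) = o'.add (f a) (f b)) (h2 : ∀ a, f (o.sh a) = o'.sh (f a))
    (h3 : ∀ a, f (o.mn a) = o'.mn (f a)) (i : ℕ) (x : V14 α) : 
    (stp o i x).map f = stp o' i (x.map f) := by
  match i with
  | 0 => simp [stp, V14.map, h1, h2, h3]
  | 1 => simp [stp, V14.map, h1, h2, h3]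
  | 2 => simp [stp, V14.map, h1, h2, h3]
  | _ + 3 => simp [stp, V14.map]

/-- the scaled coordinates of a positive word -/
def runR (t : K) (w : List ℕ) : V14 K :=
  w.foldr (stp (ringOps t)) ⟨1, 0, 0, 0, 0, 0, 0, 0, 0, 0, 0, 0, 0, 0⟩

theorem runL_map {p : ℕ} (hp1 : 1 ≤ p) (hp : (p : K) = 0) (t : K) (w : List ℕ) : 
    (runL p w).map (evl t) = runR t w := by
  induction w with
  | nil => simp [runL, runR, V14.map, evl]
  | cons i w ih =>
    show (stp (listOps p) i (runL p w)).map (evl t) = stp (ringOps t) i (runR t w)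
    rw [← ih]
    apply stp_map
    · intro a b; exact evl_ladd hp t a b
    · intro a; exact evl_lsh t a
    · intro a
      show evl t (lsh (lneg p a)) = -(t * evl t a)
      rw [evl_lsh, evl_lneg hp1 hp]
      ring

theorem samep_map {x y : V14 (List ℕ)} (h : samep x y = true) (t : K) : 
    x.map (evl t) = y.map (evl t) := by
  unfold samep at h
  simp only [Bool.and_eq_true] at h
  obtain ⟨h0, h1, h2, h3, h4, h5, h6, h7, h8, h9, h10, h11, h12, h13⟩ := h
  unfold V14.map
  rw [evl_eqz t _ _ h0, evl_eqz t _ _ h1, evl_eqz t _ _ h2, evl_eqz t _ _ h3, evl_eqz t _ _ h4,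
    evl_eqz t _ _ h5, evl_eqz t _ _ h6, evl_eqz t _ _ h7, evl_eqz t _ _ h8, evl_eqz t _ _ h9,
    evl_eqz t _ _ h10, evl_eqz t _ _ h11, evl_eqz t _ _ h12, evl_eqz t _ _ h13]

theorem runR_map {K' : Type*} [CommRing K'] (φ : K →+* K') (t : K) (w : List ℕ) : 
    (runR t w).map φ = runR (φ t) w := by
  induction w with
  | nil => simp [runR, V14.map]
  | cons i w ih =>
    show (stp (ringOps t) i (runR t w)).map φ = stp (ringOps (φ t)) i (runR (φ t) w)
    rw [← ih]
    apply stp_map <;> intros <;> simp [ringOps]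

theorem sc_map {K' : Type*} [CommRing K'] (φ : K →+* K') (v : K) (x : V14 K) : 
    sc (φ v) (x.map φ) = φ ∘ sc v x := by
  funext j
  fin_cases j <;> simp [sc, V14.map]

/-- the congruence from the check of the lists -/
theorem dvd_of_samep {p : ℕ} (hp1 : 1 ≤ p) {w w' : List ℕ} (h : samep (runL p w) (runL p w') = true)
    (v : K) (j : Fin 14) : (p : K) ∣ sc v (runR (v * v) w) j - sc v (runR (v * v) w') j := by
  set φ : K →+* K ⧸ Ideal.span {(p : K)} := Ideal.Quotient.mk _ with hφ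
  have hp : ((p : ℕ) : K ⧸ Ideal.span {(p : K)}) = 0 := by
    have h1 : φ (p : K) = 0 := by
      rw [hφ, Ideal.Quotient.eq_zero_iff_mem]
      exact Ideal.mem_span_singleton_self _
    rw [map_natCast] at h1
    exact h1
  rw [← Ideal.mem_span_singleton, ← Ideal.Quotient.eq_zero_iff_mem]
  show φ _ = 0
  rw [map_sub, sub_eq_zero]
  have h1 : ∀ w : List ℕ, φ (sc v (runR (v * v) w) j) = 
      sc (φ v) ((runL p w).map (evl (φ (v * v)))) j := by
    intro w
    rw [runL_map hp1 hp, ← runR_map, sc_map]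
    rfl
  rw [h1 w, h1 w', samep_map h]

end ev

/-- six crossings -/
def u2 : List ℕ := [2, 0, 1, 1, 2, 0]

/-- twenty-four crossings -/
def u3 : List ℕ := [2, 1, 1, 2, 0, 0, 1, 2, 1, 1, 2, 0, 2, 0, 1, 1, 2, 0, 2, 1, 0, 0, 1, 2]

/-- thirty-six crossings -/
def u5 : List ℕ := [1, 2, 0, 0, 1, 1, 2, 0, 0, 1, 1, 2, 0, 0, 1, 2, 1, 0, 0, 1, 2, 1, 1, 2, 0, 0, 1,
  2, 1, 1, 2, 0, 2, 0, 1, 1]

/-- the powers -/
def pw (u : List ℕ) (n : ℕ) : List ℕ := (List.replicate n u).flatten

end Pool.Agent.J5.H37.UJ
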