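import Pool.Agent.J5.H37.UJ.Fin
import Pool.Agent.N571.TLF.Fam

/-!
# The number of the powers with a given polynomial
-/

set_option autoImplicit false

namespace Pool.Agent.J5.H37.UJ

open Finset LaurentPolynomial Pool.Agent.H891R2.Jones Pool.Agent.W639.RB Pool.Agent.Y463.SK

theorem powers_le {m : ℕ} (hm : 0 < m) {x : List (Letter m)} (hx : IsPure x) (w : List (Letter m))
    (F : ℤ[T;T⁻¹]) :
    ((dia (braidClosure m) w).fPoly = F ∧ (dia (braidClosure m) (x ++ w)).fPoly = F) ∨
    ∀ Z : Finset ℤ, (∀ k ∈ Z, (dia (braidClosure m) (powW x k ++ w)).fPoly = F) →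
      Z.card ≤ m.choose (m / 2) := by
  classical
  have p1 : powW x 1 = x := by
    show (List.replicate 1 x).flatten = x
    simp
  have p0 : powW x 0 = [] := rfl
  have key : ∀ q : Fin 1 → ℤ, multiW (fun _ : Fin 1 => x) (fun _ => w)
      (Pool.Agent.N571.TLF.expo (fun _ _ => 1) (fun _ => 0) q) = powW x (q 0) ++ w := by
    intro q
    have h2 : ∀ i : Fin 1, Pool.Agent.N571.TLF.expo (fun _ _ => 1) (fun _ => 0) q i = q 0 := by
      intro i
      simp [Pool.Agent.N571.TLF.expo]
    simp [multiW, h2]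
  rcases Pool.Agent.N571.TLF.family (r := 1) hm (braidClosure m) (fun _ : Fin 1 => x)
    (fun _ => w) (fun _ _ => 1) (fun _ => 0) (fun _ _ => by rw [p1]; exact hx) (fun _ => 0)
    (fun _ => m) (fun _ => hm) (fun _ => by omega)
    (fun _ y _ => ⟨Nat.zero_le _, by have := y.2.2; omega⟩) F with h2 | h2
  · left
    have h3 := h2 (fun _ => 1)
    have h4 := h2 (fun _ => 0)
    rw [key, p1] at h3
    rw [key, p0, List.nil_append] at h4
    exact ⟨h4, h3⟩
  · right
    intro Z hZ
    have h3 := h2 (fun _ => Z)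
    have h4 : (Fintype.piFinset (fun _ : Fin 1 => Z)).filter (fun q =>
        (dia (braidClosure m) (multiW (fun _ : Fin 1 => x) (fun _ => w)
          (Pool.Agent.N571.TLF.expo (fun _ _ => 1) (fun _ => 0) q))).fPoly = F) =
        Fintype.piFinset (fun _ : Fin 1 => Z) := by
      apply Finset.filter_true_of_mem
      intro q hq
      rw [key]
      exact hZ _ (Fintype.mem_piFinset.1 hq 0)
    rw [h4, Fintype.card_piFinset] at h3
    simpa using h3

end Pool.Agent.J5.H37.UJ
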