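import Pool.Agent.Y463.SK.TLSpan

/-!
# Coordinates in the Temperley–Lieb algebra on four strands
-/

set_option autoImplicit false

namespace Pool.Agent.J5.H37.UJ

open Pool.Agent.Y463.SK

/-- the fourteen diagrams as words in the generators -/
def bs {B : Type*} [Ring B] (e : ℕ → B) : Fin 14 → B :=
  ![1, e 0, e 1, e 2, e 1 * e 0, e 2 * e 0, e 0 * e 1, e 2 * e 1, e 1 * e 2, e 2 * (e 1 * e 0),
    e 1 * (e 2 * e 0), e 2 * (e 0 * e 1), e 0 * (e 1 * e 2), e 1 * (e 2 * (e 0 * e 1))]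

/-- the element with given coordinates -/
def lc {R B : Type*} [CommRing R] [Ring B] [Algebra R B] (e : ℕ → B) (x : Fin 14 → R) : B :=
  ∑ j, x j • bs e j

/-- left multiplication by the generators in coordinates -/
def E {K : Type*} [CommRing K] (d : K) : ℕ → (Fin 14 → K) → (Fin 14 → K)
  | 0, x => ![0, x 0 + d * x 1 + x 4, 0, 0, 0, x 3 + d * x 5 + x 9 + x 10, x 2 + d * x 6, 0, 0, 0, 0,
      x 7 + d * x 11 + x 13, x 8 + d * x 12, 0]
  | 1, x => ![0, 0, x 0 + d * x 2 + x 6 + x 7, 0, x 1 + d * x 4 + x 9, 0, 0, 0, x 3 + d * x 8 + x 12,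
      0, x 5 + d * x 10, 0, 0, x 11 + d * x 13]
  | 2, x => ![0, 0, 0, x 0 + d * x 3 + x 8, 0, x 1 + d * x 5 + x 10 + x 12, 0, x 2 + d * x 7, 0,
      x 4 + d * x 9, 0, x 6 + d * x 11 + x 13, 0, 0]
  | _, _ => 0

section rel

variable {R B : Type*} [CommRing R] [Ring B] [Algebra R B] {d : R} {e : ℕ → B}

theorem lc_add (x y : Fin 14 → R) : lc e (x + y) = lc e x + lc e y := by
  simp [lc, add_smul, Finset.sum_add_distrib]

theorem lc_smul (r : R) (x : Fin 14 → R) : lc e (r • x) = r • lc e x := by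
  simp [lc, Finset.smul_sum, smul_smul]

theorem lc_eq (x : Fin 14 → R) : lc e x = x 0 • 1 + x 1 • e 0 + x 2 • e 1 + x 3 • e 2 +
    x 4 • (e 1 * e 0) + x 5 • (e 2 * e 0) + x 6 • (e 0 * e 1) + x 7 • (e 2 * e 1) +
    x 8 • (e 1 * e 2) + x 9 • (e 2 * (e 1 * e 0)) + x 10 • (e 1 * (e 2 * e 0)) +
    x 11 • (e 2 * (e 0 * e 1)) + x 12 • (e 0 * (e 1 * e 2)) +
    x 13 • (e 1 * (e 2 * (e 0 * e 1))) := by
  unfold lc bs
  simp only [Fin.sum_univ_succ, Fin.sum_univ_zero, Matrix.cons_val_zero, Matrix.cons_val_succ, 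
    add_zero]
  simp only [← add_assoc]
  rfl

theorem e_lc (h : IsTLr 4 d e) (i : ℕ) (hi : i < 3) (x : Fin 14 → R) :
    e i * lc e x = lc e (E d i x) := by
  have s0 := h.sq 0 (by omega)
  have s1 := h.sq 1 (by omega)
  have s2 := h.sq 2 (by omega)
  have u0 := h.up 0 (by omega)
  have u1 := h.up 1 (by omega)
  have d0 := h.down 0 (by omega)
  have d1 := h.down 1 (by omega)
  have f := h.far 0 2 (by omega) (by omega)
  simp only [zero_add, Nat.reduceAdd] at u0 u1 d0 d1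
  have s0' : ∀ y, e 0 * (e 0 * y) = d • (e 0 * y) := fun y => by 
    rw [← mul_assoc, s0, smul_mul_assoc]
  have s1' : ∀ y, e 1 * (e 1 * y) = d • (e 1 * y) := fun y => by 
    rw [← mul_assoc, s1, smul_mul_assoc]
  have s2' : ∀ y, e 2 * (e 2 * y) = d • (e 2 * y) := fun y => by 
    rw [← mul_assoc, s2, smul_mul_assoc]
  have u0' : ∀ y, e 0 * (e 1 * (e 0 * y)) = e 0 * y := fun y => by
    rw [← mul_assoc, ← mul_assoc, u0]
  have u1' : ∀ y, e 1 * (e 2 * (e 1 * y)) = e 1 * y := fun y => by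
    rw [← mul_assoc, ← mul_assoc, u1]
  have d0' : ∀ y, e 1 * (e 0 * (e 1 * y)) = e 1 * y := fun y => by
    rw [← mul_assoc, ← mul_assoc, d0]
  have d1' : ∀ y, e 2 * (e 1 * (e 2 * y)) = e 2 * y := fun y => by
    rw [← mul_assoc, ← mul_assoc, d1]
  have f' : ∀ y, e 0 * (e 2 * y) = e 2 * (e 0 * y) := fun y => by
    rw [← mul_assoc, f, mul_assoc]
  rw [mul_assoc] at u0 u1 d0 d1
  have w0 : e 0 * (e 1 * (e 2 * e 0)) = e 2 * e 0 := by
    rw [← f, u0']
  have w0' : ∀ y, e 0 * (e 1 * (e 2 * (e 0 * y))) = e 2 * (e 0 * y) := fun y => by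
    rw [← f', u0', f']
  have w2 : e 2 * (e 0 * (e 1 * e 2)) = e 2 * e 0 := by
    rw [← f', d1, f]
  rw [lc_eq, lc_eq]
  obtain rfl | rfl | rfl : i = 0 ∨ i = 1 ∨ i = 2 := by omega
  · simp only [mul_add, mul_smul_comm, mul_one, s0, s0', u0, u0', w0, w0', f, f']
    simp only [E, Matrix.cons_val]
    module
  · simp only [mul_add, mul_smul_comm, mul_one, s1, s1', d0, d0', u1, u1']
    simp only [E, Matrix.cons_val]
    module
  · simp only [mul_add, mul_smul_comm, mul_one, s2, s2', d1, d1', w2]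
    simp only [E, Matrix.cons_val]
    module

end rel

end Pool.Agent.J5.H37.UJ
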