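import Pool.Agent.J5.H37.UJ.Chain

/-!
# The closure of the fourteen diagrams
-/

set_option autoImplicit false

namespace Pool.Agent.J5.H37.UJ

open Finset LaurentPolynomial Pool.Agent.H891R2.Jones Pool.Agent.W639.RB Pool.Agent.Y463.SK

theorem sumcons {n N : ℕ} (F : (Fin (n+1) → Fin N) → ℂ) : 
    ∑ x, F x = ∑ a : Fin N, ∑ y : Fin n → Fin N, F (Matrix.vecCons a y) := by
  rw [← (Fin.consEquiv (fun _ => Fin N)).sum_comp, Fintype.sum_prod_type]
  rfl

theorem sum4 {N : ℕ} (F : (Fin 4 → Fin N) → ℂ) : 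
    ∑ x, F x = ∑ a, ∑ b, ∑ c, ∑ d, F ![a, b, c, d] := by
  rw [sumcons]
  refine Finset.sum_congr rfl fun a _ => ?_
  rw [sumcons]
  refine Finset.sum_congr rfl fun b _ => ?_
  rw [sumcons]
  refine Finset.sum_congr rfl fun c _ => ?_
  rw [sumcons]
  refine Finset.sum_congr rfl fun d _ => ?_
  rw [Fintype.sum_unique]
  congr 1

/-- the trace -/
noncomputable def trN (N : {N : ℕ // 3 ≤ N}) (b : BB 4) : ℂ := Fn (braidClosure 4) N [] b

theorem Fn_tr (N : {N : ℕ // 3 ≤ N}) (v : List (Bool × ℕ)) (b : BB 4) : 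
    Fn (braidClosure 4) N v b = trN N (b * bb 4 v) := by
  unfold trN Fn
  rw [BB_mul, bb_apply]
  rfl

/-- the unit -/
noncomputable def dl (N : ℕ) : (Fin 4 → Fin N) → ((Fin 4 → Fin N) → ℂ) := fun x y => ind (x = y)

theorem trN_eq (N : {N : ℕ // 3 ≤ N}) (b : BB 4) : 
    trN N b = ∑ a, ∑ b', ∑ c, ∑ d, (b N) (dl N.1) ![a, b', c, d] ![a, b', c, d] := by
  unfold trN Fn Zg
  rw [← sum4 (fun x => (b N) (dl N.1) x x)]
  refine Finset.sum_congr rfl fun x _ => ?_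
  have h1 : WW (Ar N.1) (braidClosure 4).arcs (braidClosure 4).crossings x = 1 := by
    simp [WW, braidClosure]
  rw [h1, one_mul]
  rfl

open Classical in
theorem e0_apply {N : {N : ℕ // 3 ≤ N}} (g : (Fin 4 → Fin N.1) → ((Fin 4 → Fin N.1) → ℂ)) 
    (a b c d : Fin N.1) (y : Fin 4 → Fin N.1) : 
    (EB 4 0 N) g ![a, b, c, d] y = if a = b then ∑ k, g ![k, k, c, d] y else 0 := by
  show (ee 4 N.1 _ 0) g ![a, b, c, d] y = _
  unfold ee
  rw [dif_pos (by omega), EE_apply]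
  have h1 : ∀ k, upd ![a, b, c, d] (⟨0, by omega⟩ : Fin 4) ⟨0 + 1, by omega⟩ k = ![k, k, c, d] := by
    intro k
    funext j
    fin_cases j <;> simp [upd]
  simp only [h1]
  show (if a = b then _ else _ : (Fin 4 → Fin N.1) → ℂ) y = _
  split_ifs
  · rw [Finset.sum_apply]
  · rfl

open Classical in
theorem e1_apply {N : {N : ℕ // 3 ≤ N}} (g : (Fin 4 → Fin N.1) → ((Fin 4 → Fin N.1) → ℂ)) 
    (a b c d : Fin N.1) (y : Fin 4 → Fin N.1) : 
    (EB 4 1 N) g ![a, b, c, d] y = if b = c then ∑ k, g ![a, k, k, d] y else 0 := by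
  show (ee 4 N.1 _ 1) g ![a, b, c, d] y = _
  unfold ee
  rw [dif_pos (by omega), EE_apply]
  have h1 : ∀ k, upd ![a, b, c, d] (⟨1, by omega⟩ : Fin 4) ⟨1 + 1, by omega⟩ k = ![a, k, k, d] := by
    intro k
    funext j
    fin_cases j <;> simp [upd]
  simp only [h1]
  show (if b = c then _ else _ : (Fin 4 → Fin N.1) → ℂ) y = _
  split_ifs
  · rw [Finset.sum_apply]
  · rfl

open Classical in
theorem e2_apply {N : {N : ℕ // 3 ≤ N}} (g : (Fin 4 → Fin N.1) → ((Fin 4 → Fin N.1) → ℂ)) 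
    (a b c d : Fin N.1) (y : Fin 4 → Fin N.1) : 
    (EB 4 2 N) g ![a, b, c, d] y = if c = d then ∑ k, g ![a, b, k, k] y else 0 := by
  show (ee 4 N.1 _ 2) g ![a, b, c, d] y = _
  unfold ee
  rw [dif_pos (by omega), EE_apply]
  have h1 : ∀ k, upd ![a, b, c, d] (⟨2, by omega⟩ : Fin 4) ⟨2 + 1, by omega⟩ k = ![a, b, k, k] := by
    intro k
    funext j
    fin_cases j <;> simp [upd]
  simp only [h1]
  show (if c = d then _ else _ : (Fin 4 → Fin N.1) → ℂ) y = _
  split_ifs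
  · rw [Finset.sum_apply]
  · rfl

open Classical in
theorem dl_apply {N : ℕ} (a b c d a' b' c' d' : Fin N) : 
    dl N ![a, b, c, d] ![a', b', c', d'] = 
      if a = a' ∧ b = b' ∧ c = c' ∧ d = d' then 1 else 0 := by
  unfold dl ind
  congr 1
  simp

/-- the number of curves of the closures of the fourteen diagrams -/
def CL : Fin 14 → ℕ := ![4, 3, 3, 3, 2, 2, 2, 2, 2, 1, 1, 1, 1, 2]

open Classical in
theorem tr_bs (N : {N : ℕ // 3 ≤ N}) (j : Fin 14) : trN N (bs (EB 4) j) = (N.1 : ℂ) ^ CL j := by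
  have hm : ∀ (x y : BB 4) (g : (Fin 4 → Fin N.1) → ((Fin 4 → Fin N.1) → ℂ)), 
    (x * y) N g = x N (y N g) := fun _ _ _ => rfl
  have h1 : ∀ (g : (Fin 4 → Fin N.1) → ((Fin 4 → Fin N.1) → ℂ)), (1 : BB 4) N g = g := fun _ => rfl
  rw [trN_eq]
  fin_cases j
  all_goals
    simp only [bs, CL, Fin.zero_eta, Fin.mk_one, Fin.reduceFinMk, Matrix.cons_val]
    simp only [hm, h1, e0_apply, e1_apply, e2_apply, dl_apply]
    simp only [true_and, and_true, ite_and, Finset.sum_ite_eq, Finset.sum_ite_eq', Finset.mem_univ, 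
      if_true, Finset.sum_const, Finset.card_univ, Fintype.card_fin, nsmul_eq_mul, ← Finset.mul_sum, 
      mul_one, Finset.sum_ite_irrel, mul_zero]
  all_goals try ring1

end Pool.Agent.J5.H37.UJ
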