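import Pool.Agent.J5.H37.UJ.Chain

/-!
# Full twists on three strands
-/

set_option autoImplicit false

namespace Pool.Agent.J5.H37.UJ

open LaurentPolynomial Pool.Agent.H891R2.Jones Pool.Agent.W639.RB Pool.Agent.Y463.SK

section alg

variable {R B : Type*} [CommRing R] [Ring B] [Algebra R B]

theorem tw3 {x y : B} {v d : R} (hv : v * d = -(1 + v * v)) (hx : x * x = d • x) 
    (hxy : x * y * x = x) : 
    (1 + v • x) * ((1 + v • y) * (1 + v • x)) = 1 + v • (x + y) + (v * v) • (x * y + y * x) := by
  have h1 : (1 + v • x) * ((1 + v • y) * (1 + v • x)) = 1 + (2 * v) • x + v • y + 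
      (v * v) • (x * y + y * x) + (v * v) • (x * x) + (v * v * v) • (x * y * x) := by
    simp only [add_mul, mul_add, smul_mul_assoc, mul_smul_comm, one_mul, mul_one, smul_smul, 
      smul_add, mul_assoc]
    module
  rw [h1, hx, hxy, smul_smul]
  have h2 : (v * v * d : R) = -(v * (1 + v * v)) := by linear_combination v * hv
  rw [h2]
  module

theorem tw6 {x y : B} {v d : R} (hv : v * d = -(1 + v * v)) (hx : x * x = d • x) 
    (hy : y * y = d • y) (hxy : x * y * x = x) (hyx : y * x * y = y) : 
    (1 + v • (x + y) + (v * v) • (x * y + y * x)) * (1 + v • (x + y) + (v * v) • (x * y + y * x)) = 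
      1 - ((v * v) * (1 - v * v)) • (d • (x + y) - (x * y + y * x)) := by
  have s1 : (x + y) * (x + y) = d • (x + y) + (x * y + y * x) := by
    calc (x + y) * (x + y) = x * x + y * y + (x * y + y * x) := by noncomm_ring
      _ = _ := by rw [hx, hy, smul_add]
  have s2 : (x + y) * (x * y + y * x) = d • (x * y + y * x) + (x + y) := by
    calc (x + y) * (x * y + y * x) = (x * x) * y + (y * y) * x + (x * y * x + y * x * y) := by 
          noncomm_ring
      _ = _ := by rw [hx, hy, hxy, hyx, smul_add, smul_mul_assoc, smul_mul_assoc]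
  have s3 : (x * y + y * x) * (x + y) = d • (x * y + y * x) + (x + y) := by
    calc (x * y + y * x) * (x + y) = x * (y * y) + y * (x * x) + (x * y * x + y * x * y) := by 
          noncomm_ring
      _ = _ := by rw [hx, hy, hxy, hyx, smul_add, mul_smul_comm, mul_smul_comm]
  have s4 : (x * y + y * x) * (x * y + y * x) = d • (x + y) + (x * y + y * x) := by
    calc (x * y + y * x) * (x * y + y * x) = (x * y * x) * y + (y * x * y) * x + 
          (x * (y * y) * x + y * (x * x) * y) := by noncomm_ring
      _ = _ := by rw [hx, hy, hxy, hyx, smul_add, mul_smul_comm, mul_smul_comm, smul_mul_assoc, 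
                    smul_mul_assoc, hxy, hyx]; abel
  set S := x + y with hS
  set W := x * y + y * x with hW
  have h1 : (1 + v • S + (v * v) • W) * (1 + v • S + (v * v) • W) = 1 + (2 * v) • S + 
      (2 * (v * v)) • W + (v * v) • (S * S) + (v * v * v) • (S * W) + (v * v * v) • (W * S) + 
      (v * v * (v * v)) • (W * W) := by
    simp only [add_mul, mul_add, smul_mul_assoc, mul_smul_comm, one_mul, mul_one, smul_smul, 
      smul_add]
    module
  rw [h1, s1, s2, s3, s4]
  have e1 : (v * v * d : R) = -(v * (1 + v * v)) := by linear_combination v * hv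
  have e2 : (v * v * v * d : R) = -(v * v * (1 + v * v)) := by linear_combination v * v * hv
  have e3 : (v * v * (v * v) * d : R) = -(v * v * v * (1 + v * v)) := by 
    linear_combination v * v * v * hv
  have e4 : ((v * v) * (1 - v * v) * d : R) = -(v * (1 - v * v) * (1 + v * v)) := by 
    linear_combination v * (1 - v * v) * hv
  simp only [smul_add, smul_sub, smul_smul]
  rw [e1, e2, e3, e4]
  module

theorem Q_sq {x y : B} {d : R} (hx : x * x = d • x) 
    (hy : y * y = d • y) (hxy : x * y * x = x) (hyx : y * x * y = y) : 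
    (d • (x + y) - (x * y + y * x)) * (d • (x + y) - (x * y + y * x)) = 
      (d ^ 2 - 1) • (d • (x + y) - (x * y + y * x)) := by
  have s1 : (x + y) * (x + y) = d • (x + y) + (x * y + y * x) := by
    calc (x + y) * (x + y) = x * x + y * y + (x * y + y * x) := by noncomm_ring
      _ = _ := by rw [hx, hy, smul_add]
  have s2 : (x + y) * (x * y + y * x) = d • (x * y + y * x) + (x + y) := by
    calc (x + y) * (x * y + y * x) = (x * x) * y + (y * y) * x + (x * y * x + y * x * y) := by 
          noncomm_ring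
      _ = _ := by rw [hx, hy, hxy, hyx, smul_add, smul_mul_assoc, smul_mul_assoc]
  have s3 : (x * y + y * x) * (x + y) = d • (x * y + y * x) + (x + y) := by
    calc (x * y + y * x) * (x + y) = x * (y * y) + y * (x * x) + (x * y * x + y * x * y) := by 
          noncomm_ring
      _ = _ := by rw [hx, hy, hxy, hyx, smul_add, mul_smul_comm, mul_smul_comm]
  have s4 : (x * y + y * x) * (x * y + y * x) = d • (x + y) + (x * y + y * x) := by
    calc (x * y + y * x) * (x * y + y * x) = (x * y * x) * y + (y * x * y) * x + 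
          (x * (y * y) * x + y * (x * x) * y) := by noncomm_ring
      _ = _ := by rw [hx, hy, hxy, hyx, smul_add, mul_smul_comm, mul_smul_comm, smul_mul_assoc, 
                    smul_mul_assoc, hxy, hyx]; abel
  set S := x + y with hS
  set W := x * y + y * x with hW
  simp only [sub_mul, mul_sub, smul_mul_assoc, mul_smul_comm, smul_smul, s1, s2, s3, s4, smul_add]
  module

/-- the element of the full twist on three strands -/
def Qi (d : R) (e : ℕ → B) (i : ℕ) : B := d • (e i + e (i+1)) - (e i * e (i+1) + e (i+1) * e i)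

variable {A A' d : R} {e : ℕ → B}

/-- the full twist on three strands -/
def fw (i : ℕ) : List (Bool × ℕ) := [(true, i), (true, i+1), (true, i), (true, i+1), (true, i), (true, i+1)]

theorem wd_fw (h : IsTLr 4 d e) (hA : A * A' = 1) (hd : d = -A ^ 2 - A' ^ 2) {i : ℕ} (hi : i + 2 < 4) : 
    wd A A' e (fw i) = A ^ 6 • (1 - (A' ^ 4 * (1 - A' ^ 4)) • Qi d e i) := by
  have hv : (A' * A') * d = -(1 + (A' * A') * (A' * A')) := by
    rw [hd]
    linear_combination (-(A * A') - 1) * hA
  have hx := h.sq i (by omega)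
  have hy := h.sq (i+1) (by omega)
  have hxy := h.up i hi
  have hyx := h.down i hi
  have h1 : wd A A' e (fw i) = 
      (ltr A A' e (true, i) * (ltr A A' e (true, i+1) * ltr A A' e (true, i))) * 
      (ltr A A' e (true, i+1) * (ltr A A' e (true, i) * ltr A A' e (true, i+1))) := by
    simp only [wd, fw, List.map_cons, List.map_nil, List.prod_cons, List.prod_nil, mul_one]
    noncomm_ring
  rw [h1, ltr_pos hA, ltr_pos hA]
  simp only [smul_mul_assoc, mul_smul_comm, smul_smul]
  rw [tw3 hv hx hxy, tw3 hv hy hyx]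
  have h2 : (1 : B) + (A' * A') • (e (i + 1) + e i) + (A' * A' * (A' * A')) • (e (i + 1) * e i + e i * e (i + 1)) = 
    1 + (A' * A') • (e i + e (i + 1)) + (A' * A' * (A' * A')) • (e i * e (i + 1) + e (i + 1) * e i) := by
    rw [add_comm (e (i+1)) (e i), add_comm (e (i + 1) * e i)]
  rw [h2, tw6 hv hx hy hxy hyx]
  unfold Qi
  have e2 : (A' * A' * (A' * A') * (1 - A' * A' * (A' * A')) : R) = A' ^ 4 * (1 - A' ^ 4) := by ring
  rw [e2]
  congr 1
  ring

theorem wd_fwk (h : IsTLr 4 d e) (hA : A * A' = 1) (hd : d = -A ^ 2 - A' ^ 2) {i : ℕ} (hi : i + 2 < 4) 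
    (k : ℕ) : wd A A' e (List.replicate k (fw i)).flatten = (A ^ 6) ^ k • (1 : B) - 
      ((A ^ 6) ^ k * (A' ^ 4 * (1 - A' ^ 4)) * ∑ j ∈ Finset.range k, (A' ^ 12) ^ j) • Qi d e i := by
  rw [wd_replicate, wd_fw h hA hd hi, smul_pow]
  have hQ : Qi d e i * Qi d e i = (d ^ 2 - 1) • Qi d e i := 
    Q_sq (h.sq i (by omega)) (h.sq (i+1) (by omega)) (h.up i hi) (h.down i hi)
  have h1 : (1 - (A' ^ 4 * (1 - A' ^ 4)) • Qi d e i) ^ k = 
      1 - ((A' ^ 4 * (1 - A' ^ 4)) * ∑ j ∈ Finset.range k, (A' ^ 12) ^ j) • Qi d e i := by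
    induction k with
    | zero => simp
    | succ k ih =>
      rw [pow_succ, ih, Finset.sum_range_succ', pow_zero]
      have h2 : ∑ j ∈ Finset.range k, (A' ^ 12) ^ (j + 1) = 
          (A' ^ 12) * ∑ j ∈ Finset.range k, (A' ^ 12) ^ j := by
        rw [Finset.mul_sum]
        refine Finset.sum_congr rfl fun k _ => ?_
        rw [pow_succ]; ring
      rw [h2]
      set g := ∑ j ∈ Finset.range k, (A' ^ 12) ^ j
      set c := A' ^ 4 * (1 - A' ^ 4) with hc
      have h3 : c * (c * g * (d ^ 2 - 1)) = c * g * (1 - A' ^ 12) := by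
        rw [hc, hd]
        have : A' ^ 4 * ((-A ^ 2 - A' ^ 2) ^ 2 - 1) = 1 + A' ^ 4 + A' ^ 8 := by
          linear_combination (A ^ 3 * A' ^ 3 + A ^ 2 * A' ^ 2 + A * A' + 1 + 2 * A' ^ 4 * (A * A') + 2 * A' ^ 4) * hA
        linear_combination (A' ^ 4 * (1 - A' ^ 4) * g * (1 - A' ^ 4)) * this
      have h5 : (1 - (c * g) • Qi d e i) * (1 - c • Qi d e i) = 
          1 - (c * g + c) • Qi d e i + (c * (c * g)) • (Qi d e i * Qi d e i) := by
        simp only [sub_mul, mul_sub, mul_one, one_mul, smul_mul_assoc, mul_smul_comm, smul_smul]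
        module
      rw [h5, hQ, smul_smul, mul_assoc c (c * g), h3]
      module
  rw [h1, smul_sub, smul_smul]
  congr 2
  ring

end alg

end Pool.Agent.J5.H37.UJ
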