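import Pool.Agent.J5.H37.UJ.Gram
import Pool.Agent.W639.RB.Knots

/-!
# Short words with trivial closure detect the elements of the algebra
-/

set_option autoImplicit false

namespace Pool.Agent.J5.H37.UJ

open Finset LaurentPolynomial Pool.Agent.H891R2.Jones Pool.Agent.W639.RB Pool.Agent.Y463.SK

theorem Ar4 (N : {N : ℕ // 3 ≤ N}) : Ar N.1 ^ 4 ≠ 1 := by
  intro h
  have h1 : Ar N.1 ^ (4 : ℤ) = Ar N.1 ^ (0 : ℤ) := by
    rw [zpow_zero]; exact_mod_cast h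
  have := Ar_zpow_inj N.1 N.2 h1
  omega

/-- generator or one -/
noncomputable def q (b : Bool) (i : ℕ) : BB 4 := if b then EB 4 i else 1

theorem two {N : {N : ℕ // 3 ≤ N}} (μ : BB 4 → ℂ) (hadd : ∀ b b', μ (b + b') = μ b + μ b') 
    (hsmul : ∀ (r : ℤ[T;T⁻¹]) b, μ (r • b) = ev N.1 N.2 r * μ b) (i : ℕ) 
    (h : ∀ s : Bool, μ (ltr (T 1 : ℤ[T;T⁻¹]) (T (-1)) (EB 4) (s, i)) = 0) (b : Bool) : 
    μ (q b i) = 0 := by
  have ht := h true
  have hf := h false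
  have hA := Ar_ne N.1 N.2
  simp only [ltr, if_true, hadd, hsmul, ev_T1, ev_Tm1, Bool.false_eq_true, if_false] at ht hf
  have h4 : Ar N.1 ^ 4 ≠ 1 := Ar4 N
  have hi : Ar N.1 * (Ar N.1)⁻¹ = 1 := mul_inv_cancel₀ hA
  have key : ((Ar N.1) ^ 2 - (Ar N.1)⁻¹ ^ 2) ≠ 0 := by
    intro h5
    apply h4
    calc Ar N.1 ^ 4 = Ar N.1 ^ 2 * ((Ar N.1) ^ 2 - (Ar N.1)⁻¹ ^ 2) + (Ar N.1 * (Ar N.1)⁻¹) ^ 2 := by ring
      _ = 1 := by rw [h5, hi]; ring
  have h1 : ((Ar N.1) ^ 2 - (Ar N.1)⁻¹ ^ 2) * μ 1 = 0 := by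
    linear_combination Ar N.1 * ht - (Ar N.1)⁻¹ * hf
  have h2 : ((Ar N.1) ^ 2 - (Ar N.1)⁻¹ ^ 2) * μ (EB 4 i) = 0 := by
    linear_combination Ar N.1 * hf - (Ar N.1)⁻¹ * ht
  unfold q
  split_ifs
  · exact (mul_eq_zero.1 h2).resolve_left key
  · exact (mul_eq_zero.1 h1).resolve_left key

theorem tri {N : {N : ℕ // 3 ≤ N}} (μ : BB 4 → ℂ) (hadd : ∀ b b', μ (b + b') = μ b + μ b') 
    (hsmul : ∀ (r : ℤ[T;T⁻¹]) b, μ (r • b) = ev N.1 N.2 r * μ b) (i j k : ℕ) 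
    (h : ∀ s1 s2 s3 : Bool, μ (bb 4 [(s1, i), (s2, j), (s3, k)]) = 0) (b1 b2 b3 : Bool) : 
    μ (q b1 i * (q b2 j * q b3 k)) = 0 := by
  have h0 : ∀ s1 s2 s3 : Bool, bb 4 [(s1, i), (s2, j), (s3, k)] = 
      ltr (T 1 : ℤ[T;T⁻¹]) (T (-1)) (EB 4) (s1, i) * (ltr (T 1 : ℤ[T;T⁻¹]) (T (-1)) (EB 4) (s2, j) *
        ltr (T 1 : ℤ[T;T⁻¹]) (T (-1)) (EB 4) (s3, k)) := by
    intro s1 s2 s3
    simp [bb, wd]
  simp only [h0] at h
  have h1 : ∀ s2 s3 : Bool, μ (q b1 i * (ltr (T 1 : ℤ[T;T⁻¹]) (T (-1)) (EB 4) (s2, j) *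
        ltr (T 1 : ℤ[T;T⁻¹]) (T (-1)) (EB 4) (s3, k))) = 0 := by
    intro s2 s3
    exact two (N := N) (fun z => μ (z * (ltr (T 1 : ℤ[T;T⁻¹]) (T (-1)) (EB 4) (s2, j) *
        ltr (T 1 : ℤ[T;T⁻¹]) (T (-1)) (EB 4) (s3, k)))) (by intro b b'; simp only [add_mul, hadd])
      (by intro r b; simp only [smul_mul_assoc, hsmul]) i (fun s => h s s2 s3) b1
  have h2 : ∀ s3 : Bool, μ (q b1 i * (q b2 j * ltr (T 1 : ℤ[T;T⁻¹]) (T (-1)) (EB 4) (s3, k))) = 0 := by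
    intro s3
    exact two (N := N) (fun z => μ (q b1 i * (z * ltr (T 1 : ℤ[T;T⁻¹]) (T (-1)) (EB 4) (s3, k)))) 
      (by intro b b'; simp only [add_mul, mul_add, hadd])
      (by intro r b; simp only [smul_mul_assoc, mul_smul_comm, hsmul]) j (fun s => h1 s s3) b2
  exact two (N := N) (fun z => μ (q b1 i * (q b2 j * z))) (by intro b b'; simp only [mul_add, hadd])
      (by intro r b; simp only [mul_smul_comm, hsmul]) k h2 b3

/-- the fifth word -/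
def w5 : List (Bool × ℕ) := [(false, 1), (true, 2), (true, 0), (true, 1), (true, 1)]

theorem one14_eq {K : Type*} [CommRing K] : 
    (one14 : Fin 14 → K) = ![1, 0, 0, 0, 0, 0, 0, 0, 0, 0, 0, 0, 0, 0] := by
  funext j
  fin_cases j <;> simp [one14]

theorem co_w5 {K : Type*} [Field K] {a d : K} (ha : a ≠ 0) (hd : d = -a ^ 2 - a⁻¹ ^ 2) : 
    co a a⁻¹ d w5 13 = a⁻¹ * (1 - a⁻¹ ^ 4) := by
  simp only [co, w5, List.foldr_cons, List.foldr_nil, one14_eq, La, if_true, E, Matrix.smul_cons, 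
    Matrix.cons_add_cons, Matrix.cons_val, Matrix.smul_empty, Matrix.empty_add_empty, 
    Bool.false_eq_true, if_false, smul_eq_mul, mul_zero, mul_one, add_zero, zero_add]
  rw [hd]
  field_simp
  ring

theorem w5_lt : ∀ x ∈ w5, x.2 + 1 < 4 := by decide

theorem bb_lc (w : List (Bool × ℕ)) (hw : ∀ x ∈ w, x.2 + 1 < 4) : 
    bb 4 w = lc (EB 4) (co (T 1 : ℤ[T;T⁻¹]) (T (-1)) dd w) := wd_eq (isTLr_EB 4) w hw

theorem ev_co (N : {N : ℕ // 3 ≤ N}) (w : List (Bool × ℕ)) (j : Fin 14) : 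
    ev N.1 N.2 (co (T 1 : ℤ[T;T⁻¹]) (T (-1)) dd w j) = co (Ar N.1) (Ar N.1)⁻¹ (N.1 : ℂ) w j := by
  have := co_map (ev N.1 N.2) (T 1 : ℤ[T;T⁻¹]) (T (-1)) dd w
  rw [ev_T1, ev_Tm1, ev_dd] at this
  rw [this]
  rfl

/-- the orders of the short words -/
def ords : List (ℕ × ℕ × ℕ) := [(0, 1, 2), (2, 1, 0), (1, 2, 0), (2, 0, 1)]

/-- if a functional vanishes on the short words, then it vanishes on all diagrams -/
theorem all_bs {N : {N : ℕ // 3 ≤ N}} (μ : BB 4 → ℂ) (hadd : ∀ b b', μ (b + b') = μ b + μ b') 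
    (hsmul : ∀ (r : ℤ[T;T⁻¹]) b, μ (r • b) = ev N.1 N.2 r * μ b)
    (h : ∀ o ∈ ords, ∀ s1 s2 s3 : Bool, μ (bb 4 [(s1, o.1), (s2, o.2.1), (s3, o.2.2)]) = 0)
    (h5 : μ (bb 4 w5) = 0) (k : Fin 14) : μ (bs (EB 4) k) = 0 := by
  have h012 := tri μ hadd hsmul 0 1 2 (fun s1 s2 s3 => h (0, 1, 2) (by simp [ords]) s1 s2 s3)
  have h210 := tri μ hadd hsmul 2 1 0 (fun s1 s2 s3 => h (2, 1, 0) (by simp [ords]) s1 s2 s3)
  have h120 := tri μ hadd hsmul 1 2 0 (fun s1 s2 s3 => h (1, 2, 0) (by simp [ords]) s1 s2 s3)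
  have h201 := tri μ hadd hsmul 2 0 1 (fun s1 s2 s3 => h (2, 0, 1) (by simp [ords]) s1 s2 s3)
  have hlt : ∀ k : Fin 14, k ≠ 13 → μ (bs (EB 4) k) = 0 := by
    intro k hk
    fin_cases k
    · simpa [bs, q] using h012 false false false
    · simpa [bs, q] using h012 true false false
    · simpa [bs, q] using h012 false true false
    · simpa [bs, q] using h012 false false true
    · simpa [bs, q] using h210 false true true
    · simpa [bs, q] using h210 true false true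
    · simpa [bs, q] using h012 true true false
    · simpa [bs, q] using h210 true true false
    · simpa [bs, q] using h012 false true true
    · simpa [bs, q] using h210 true true true
    · simpa [bs, q] using h120 true true true
    · simpa [bs, q] using h201 true true true
    · simpa [bs, q] using h012 true true true
    · exact absurd rfl hk
  by_cases hk : k = 13
  · subst hk
    have h0 : μ 0 = 0 := by
      have := hadd 0 0
      rw [add_zero] at this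
      exact left_eq_add.1 this
    have hsum : ∀ (s : Finset (Fin 14)) (g : Fin 14 → BB 4), μ (∑ i ∈ s, g i) = ∑ i ∈ s, μ (g i) := by
      intro s g
      induction s using Finset.induction_on with
      | empty => simp [h0]
      | insert a s ha ih => rw [Finset.sum_insert ha, Finset.sum_insert ha, hadd, ih]
    rw [bb_lc w5 w5_lt, lc, hsum] at h5
    simp only [hsmul, ev_co] at h5
    rw [Finset.sum_eq_single 13 (fun b _ hb => by rw [hlt b hb, mul_zero]) (by simp), 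
      co_w5 (Ar_ne N.1 N.2) (Ar_d N.1 N.2)] at h5
    have h6 : (Ar N.1)⁻¹ * (1 - (Ar N.1)⁻¹ ^ 4) ≠ 0 := by
      apply mul_ne_zero (inv_ne_zero (Ar_ne N.1 N.2))
      rw [sub_ne_zero, inv_pow]
      intro h7
      exact Ar4 N (inv_eq_one.1 h7.symm)
    exact (mul_eq_zero.1 h5).resolve_left h6
  · exact hlt k hk

end Pool.Agent.J5.H37.UJ
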